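import Pool.Agent.Helper26.DR.Defs

set_option autoImplicit false

namespace Pool.Agent.Helper26.DR

open Equiv Finset

private lemma ColB_prod {n j : ℕ} (σ : Perm (Fin n)) (s : Fin n → Fin (j + 1)) :
    ∏ i, cw s i (σ i) =
      if (∀ i, s i = 0 ↔ σ i = i) ∧ ∀ i, s (σ i) = s i then 1 else 0 := by
  by_cases h : (∀ i, s i = 0 ↔ σ i = i) ∧ ∀ i, s (σ i) = s i
  · rw [if_pos h]
    refine Finset.prod_eq_one fun i _ => ?_
    unfold cw
    by_cases h0 : s i = 0
    · rw [if_pos h0, if_pos (Or.inl ((h.1 i).mp h0))]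
    · rw [if_neg h0, if_pos ⟨fun e => h0 ((h.1 i).mpr e), h.2 i⟩]
  · rw [if_neg h]
    by_contra hne
    have hi : ∀ i, cw s i (σ i) ≠ 0 := fun i =>
      (Finset.prod_ne_zero_iff.mp hne) i (Finset.mem_univ i)
    have h1 : ∀ i, s i = 0 → σ i = i ∨ s (σ i) ≠ 0 := by
      intro i h0
      have := hi i
      unfold cw at this
      rw [if_pos h0] at this
      by_contra hc
      rw [if_neg hc] at this
      exact this rfl
    have h2 : ∀ i, s i ≠ 0 → σ i ≠ i ∧ s (σ i) = s i := by
      intro i h0
      have := hi i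
      unfold cw at this
      rw [if_neg h0] at this
      by_contra hc
      rw [if_neg hc] at this
      exact this rfl
    -- the set of the coloured points is mapped onto itself
    have h3 : (Finset.univ.filter fun i => s i ≠ 0).image σ =
        Finset.univ.filter fun i => s i ≠ 0 := by
      refine Finset.eq_of_subset_of_card_le ?_ ?_
      · intro x hx
        obtain ⟨i, hi', rfl⟩ := Finset.mem_image.mp hx
        rw [Finset.mem_filter] at hi' ⊢
        refine ⟨Finset.mem_univ _, ?_⟩
        rw [(h2 i hi'.2).2]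
        exact hi'.2
      · rw [Finset.card_image_of_injective _ σ.injective]
    have h4 : ∀ i, s i = 0 → s (σ i) = 0 := by
      intro i h0
      by_contra hc
      have h5 : σ i ∈ (Finset.univ.filter fun i => s i ≠ 0).image σ := by
        rw [h3, Finset.mem_filter]
        exact ⟨Finset.mem_univ _, hc⟩
      obtain ⟨k, hk, hk2⟩ := Finset.mem_image.mp h5
      rw [Finset.mem_filter] at hk
      rw [σ.injective hk2] at hk
      exact hk.2 h0
    have h5 : ∀ i, s i = 0 → σ i = i := by
      intro i h0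
      rcases h1 i h0 with h6 | h6
      · exact h6
      · exact absurd (h4 i h0) h6
    refine h ⟨fun i => ⟨h5 i, fun e => ?_⟩, fun i => ?_⟩
    · by_contra h0
      exact (h2 i h0).1 e
    · by_cases h0 : s i = 0
      · rw [h5 i h0]
      · exact (h2 i h0).2

private lemma ColB_cs {n j : ℕ} (σ : Perm (Fin n)) (s : Fin n → Fin (j + 1))
    (h : ∀ i, s i = 0 ↔ σ i = i) : cs s = (-1) ^ #σ.support := by
  have h1 : cs s = ∏ i, if i ∈ σ.support then (-1 : ℂ) else 1 := by
    unfold cs
    refine Finset.prod_congr rfl fun i _ => ?_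
    by_cases h0 : s i = 0
    · rw [if_pos h0, if_neg]
      rw [Perm.mem_support]
      exact fun e => e ((h i).mp h0)
    · rw [if_neg h0, if_pos]
      rw [Perm.mem_support]
      exact fun e => h0 ((h i).mpr e)
  rw [h1, Finset.prod_ite_mem, Finset.univ_inter, Finset.prod_const]

/-- Piece E2. Permutations, first step.  If all factors `cw s i (σ i)` are nonzero (then the product
is `1`) the set `{i | s i ≠ 0}` is mapped into itself by `σ`, hence onto itself, so `s i = 0` implies
`s (σ i) = 0` and then `σ i = i`; conversely `s i ≠ 0` implies `σ i ≠ i` and `s (σ i) = s i`.  Then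
`cs s = (-1) ^ #σ.support`. -/
theorem col_perm {n j : ℕ} (σ : Perm (Fin n)) :
    ∑ s ∈ XC n j, cs s * ∏ i, cw s i (σ i) = (-1) ^ #σ.support *
      (#{s ∈ XC n j | (∀ i, s i = 0 ↔ σ i = i) ∧ ∀ i, s (σ i) = s i} : ℂ) := by
  have h1 : ∀ s ∈ XC n j, cs s * ∏ i, cw s i (σ i) =
      if (∀ i, s i = 0 ↔ σ i = i) ∧ ∀ i, s (σ i) = s i then (-1) ^ #σ.support else 0 := by
    intro s _
    rw [ColB_prod]
    by_cases h : (∀ i, s i = 0 ↔ σ i = i) ∧ ∀ i, s (σ i) = s i
    · rw [if_pos h, if_pos h, mul_one, ColB_cs σ s h.1]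
    · rw [if_neg h, if_neg h, mul_zero]
  rw [Finset.sum_congr rfl h1, ← Finset.sum_filter, Finset.sum_const, nsmul_eq_mul, mul_comm]

end Pool.Agent.Helper26.DR
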