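import Pool.Agent.Helper26.DR.Defs

set_option autoImplicit false

namespace Pool.Agent.Helper26.DR

open Equiv Finset

private lemma colC_pow {n : ℕ} {α : Type} (σ : Perm (Fin n)) (s : Fin n → α)
    (hs : ∀ i, s (σ i) = s i) (m : ℕ) (i : Fin n) : s ((σ ^ m) i) = s i := by
  induction m with
  | zero => rfl
  | succ m ih =>
    rw [pow_succ', Perm.mul_apply, hs, ih]

private lemma colC_same {n : ℕ} {α : Type} (σ : Perm (Fin n)) (s : Fin n → α)
    (hs : ∀ i, s (σ i) = s i) {i k : Fin n} (h : σ.SameCycle i k) : s i = s k := by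
  obtain ⟨m, -, hm⟩ := h.exists_pow_eq'
  rw [← hm, colC_pow σ s hs]

/-- Piece E3. Permutations, second step.  A colouring as on the left is the same as a surjective map
from the set of cycles `σ.cycleFactorsFinset` to `Fin j`: it is constant on the support of each
cycle.  (From `f` one gets `s i = (f (σ.cycleOf i)).succ` for `i` in the support,
`Equiv.Perm.cycleOf_mem_cycleFactorsFinset_iff`; from `s` one gets the common colour of the points
of a cycle.)  `#σ.cycleFactorsFinset = Multiset.card σ.cycleType`. -/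
theorem col_count {n j : ℕ} (σ : Perm (Fin n)) :
    #{s ∈ XC n j | (∀ i, s i = 0 ↔ σ i = i) ∧ ∀ i, s (σ i) = s i} =
      #{f : Fin (Multiset.card σ.cycleType) → Fin j | Function.Surjective f} := by
  classical
  have hcard : Fintype.card (σ.cycleFactorsFinset : Finset (Perm (Fin n))) =
      Multiset.card σ.cycleType := by
    rw [Fintype.card_coe, Perm.cycleType_def, Multiset.card_map]
    rfl
  let e : (σ.cycleFactorsFinset : Finset (Perm (Fin n))) ≃ Fin (Multiset.card σ.cycleType) :=
    Fintype.equivFinOfCardEq hcard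
  have hmem : ∀ i, σ i ≠ i → σ.cycleOf i ∈ σ.cycleFactorsFinset := fun i hi =>
    Perm.cycleOf_mem_cycleFactorsFinset_iff.mpr (Perm.mem_support.mpr hi)
  let toS : (Fin (Multiset.card σ.cycleType) → Fin j) → (Fin n → Fin (j + 1)) := fun f i =>
    if h : σ i ≠ i then (f (e ⟨σ.cycleOf i, hmem i h⟩)).succ else 0
  have htoS : ∀ f i (h : σ i ≠ i), toS f i = (f (e ⟨σ.cycleOf i, hmem i h⟩)).succ := by
    intro f i h
    exact dif_pos h
  have htoS0 : ∀ f i, σ i = i → toS f i = 0 := by
    intro f i h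
    exact dif_neg (not_not.mpr h)
  -- representatives of cycles
  have hrep : ∀ c : (σ.cycleFactorsFinset : Finset (Perm (Fin n))),
      ∃ i : Fin n, ∃ h : σ i ≠ i, (⟨σ.cycleOf i, hmem i h⟩ :
        (σ.cycleFactorsFinset : Finset (Perm (Fin n)))) = c := by
    rintro ⟨c, hc⟩
    have hcyc := (Perm.mem_cycleFactorsFinset_iff.mp hc).1
    obtain ⟨i, hi, -⟩ := hcyc
    have hi' : i ∈ c.support := Perm.mem_support.mpr hi
    have h1 : c = σ.cycleOf i := Perm.cycle_is_cycleOf hi' hc
    have h2 : σ i ≠ i := Perm.mem_support.mp (Perm.mem_cycleFactorsFinset_support_le hc hi')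
    exact ⟨i, h2, Subtype.ext h1.symm⟩
  symm
  refine Finset.card_bij (fun f _ => toS f) ?_ ?_ ?_
  · intro f hf
    have hf' : Function.Surjective f := (Finset.mem_filter.mp hf).2
    refine Finset.mem_filter.mpr ⟨?_, fun i => ?_, fun i => ?_⟩
    · unfold XC
      refine Finset.mem_filter.mpr ⟨Finset.mem_univ _, fun c hc => ?_⟩
      obtain ⟨c', rfl⟩ := Fin.exists_succ_eq.mpr hc
      obtain ⟨k, rfl⟩ := hf' c'
      obtain ⟨i, h, hi⟩ := hrep (e.symm k)
      refine ⟨i, ?_⟩
      rw [htoS f i h, hi, Equiv.apply_symm_apply]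
    · by_cases h : σ i = i
      · exact ⟨fun _ => h, fun _ => htoS0 f i h⟩
      · rw [htoS f i h]
        exact ⟨fun h' => absurd h' (Fin.succ_ne_zero _), fun h' => absurd h' h⟩
    · by_cases h : σ i = i
      · rw [h]
      · have h2 : σ (σ i) ≠ σ i := fun h' => h (σ.injective h')
        rw [htoS f i h, htoS f (σ i) h2]
        congr 3
        apply Subtype.ext
        exact (Perm.SameCycle.cycleOf_eq (Perm.sameCycle_apply_right.mpr
          (Perm.SameCycle.refl σ i))).symm
  · intro f _ f' _ hff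
    funext k
    obtain ⟨i, h, hi⟩ := hrep (e.symm k)
    have h1 := congrFun hff i
    rw [htoS f i h, htoS f' i h, hi, Equiv.apply_symm_apply] at h1
    exact Fin.succ_injective _ h1
  · intro s hs
    obtain ⟨hsX, hs0, hsσ⟩ := Finset.mem_filter.mp hs
    have hX : ∀ c : Fin (j + 1), c ≠ 0 → ∃ i, s i = c := by
      unfold XC at hsX
      exact (Finset.mem_filter.mp hsX).2
    have hex : ∀ k : Fin (Multiset.card σ.cycleType), ∃ c : Fin j, ∀ i (h : σ i ≠ i),
        (⟨σ.cycleOf i, hmem i h⟩ : (σ.cycleFactorsFinset : Finset (Perm (Fin n)))) = e.symm k →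
          s i = c.succ := by
      intro k
      obtain ⟨i, h, hi⟩ := hrep (e.symm k)
      have hne : s i ≠ 0 := fun h' => h ((hs0 i).mp h')
      obtain ⟨c, hc⟩ := Fin.exists_succ_eq.mpr hne
      refine ⟨c, fun i' h' hi' => ?_⟩
      have h1 : σ.cycleOf i' = σ.cycleOf i := congrArg Subtype.val (hi'.trans hi.symm)
      have h2 : i ∈ (σ.cycleOf i).support :=
        Perm.mem_support_cycleOf_iff.mpr ⟨Perm.SameCycle.refl σ i, Perm.mem_support.mpr h⟩
      rw [← h1] at h2
      have h3 := (Perm.mem_support_cycleOf_iff.mp h2).1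
      rw [colC_same σ s hsσ h3, hc]
    choose f hf using hex
    have hfS : ∀ i (h : σ i ≠ i), (f (e ⟨σ.cycleOf i, hmem i h⟩)).succ = s i := by
      intro i h
      exact (hf _ i h (by rw [Equiv.symm_apply_apply])).symm
    refine ⟨f, Finset.mem_filter.mpr ⟨Finset.mem_univ _, fun c => ?_⟩, ?_⟩
    · obtain ⟨i, hi⟩ := hX c.succ (Fin.succ_ne_zero c)
      have h : σ i ≠ i := by
        intro h'
        rw [(hs0 i).mpr h'] at hi
        exact Fin.succ_ne_zero c hi.symm
      refine ⟨e ⟨σ.cycleOf i, hmem i h⟩, ?_⟩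
      have := hfS i h
      rw [hi] at this
      exact Fin.succ_injective _ this
    · funext i
      by_cases h : σ i = i
      · rw [htoS0 f i h, (hs0 i).mpr h]
      · rw [htoS f i h, hfS i h]

end Pool.Agent.Helper26.DR
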