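import Pool.Agent.Helper26.DR.Defs

set_option autoImplicit false

namespace Pool.Agent.Helper26.DR

open Equiv Finset

private theorem surj_cons {c j : ℕ} (y : Fin j) (g : Fin c → Fin j) :
    Function.Surjective (Fin.cons y g : Fin (c + 1) → Fin j) ↔ ∀ z, z ≠ y → ∃ i, g i = z := by
  constructor
  · intro h z hz
    obtain ⟨i, hi⟩ := h z
    rcases Fin.eq_zero_or_eq_succ i with rfl | ⟨k, rfl⟩
    · rw [Fin.cons_zero] at hi
      exact absurd hi.symm hz
    · rw [Fin.cons_succ] at hi
      exact ⟨k, hi⟩
  · intro h z
    by_cases hz : z = y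
    · exact ⟨0, by rw [Fin.cons_zero, hz]⟩
    · obtain ⟨i, hi⟩ := h z hz
      exact ⟨i.succ, by rw [Fin.cons_succ, hi]⟩

private theorem surj_fix {c j : ℕ} (y : Fin (j + 1)) :
    #{g : Fin c → Fin (j + 1) | ∀ z, z ≠ y → ∃ i, g i = z} =
      #{g : Fin c → Fin (j + 1) | Function.Surjective g} +
        #{g : Fin c → Fin j | Function.Surjective g} := by
  classical
  rw [← Finset.card_filter_add_card_filter_not (s := ({g : Fin c → Fin (j + 1) |
    ∀ z, z ≠ y → ∃ i, g i = z} : Finset _)) (fun g => ∃ i, g i = y)]
  congr 1
  · rw [Finset.filter_filter]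
    congr 1
    ext g
    simp only [Finset.mem_filter, Finset.mem_univ, true_and]
    constructor
    · rintro ⟨h1, h2⟩ z
      by_cases hz : z = y
      · rw [hz]; exact h2
      · exact h1 z hz
    · intro h
      exact ⟨fun z _ => h z, h y⟩
  · symm
    refine Finset.card_bij (fun g' _ => fun i => y.succAbove (g' i)) ?_ ?_ ?_
    · intro g' hg'
      simp only [Finset.mem_filter, Finset.mem_univ, true_and] at hg' ⊢
      refine ⟨fun z hz => ?_, ?_⟩
      · obtain ⟨k, hk⟩ := Fin.exists_succAbove_eq hz
        obtain ⟨i, hi⟩ := hg' k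
        exact ⟨i, by rw [hi, hk]⟩
      · rintro ⟨i, hi⟩
        exact Fin.succAbove_ne y _ hi
    · intro g1 _ g2 _ h
      funext i
      exact Fin.succAbove_right_injective (congrFun h i)
    · intro g hg
      simp only [Finset.mem_filter, Finset.mem_univ, true_and] at hg
      have h1 : ∀ i, ∃ k, y.succAbove k = g i := fun i =>
        Fin.exists_succAbove_eq fun h => hg.2 ⟨i, h⟩
      choose k hk using h1
      refine ⟨k, ?_, funext hk⟩
      simp only [Finset.mem_filter, Finset.mem_univ, true_and]
      intro z
      obtain ⟨i, hi⟩ := hg.1 (y.succAbove z) (Fin.succAbove_ne y z)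
      refine ⟨i, ?_⟩
      rw [← hk i] at hi
      exact Fin.succAbove_right_injective hi

private theorem surj_succ (c j : ℕ) :
    #{f : Fin (c + 1) → Fin (j + 1) | Function.Surjective f} =
      (j + 1) * (#{g : Fin c → Fin (j + 1) | Function.Surjective g} +
        #{g : Fin c → Fin j | Function.Surjective g}) := by
  classical
  have h1 : #{f : Fin (c + 1) → Fin (j + 1) | Function.Surjective f} =
      ∑ y : Fin (j + 1), #{g : Fin c → Fin (j + 1) | ∀ z, z ≠ y → ∃ i, g i = z} := by
    rw [← Finset.card_sigma]
    symm
    refine Finset.card_bij (fun x _ => (Fin.cons x.1 x.2 : Fin (c + 1) → Fin (j + 1))) ?_ ?_ ?_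
    · rintro ⟨y, g⟩ hx
      simp only [Finset.mem_sigma, Finset.mem_univ, true_and, Finset.mem_filter] at hx ⊢
      exact (surj_cons y g).2 hx
    · rintro ⟨y, g⟩ _ ⟨y', g'⟩ _ h
      have h0 := congrFun h 0
      simp only [Fin.cons_zero] at h0
      have h2 : g = g' := by
        funext i
        have := congrFun h i.succ
        simpa only [Fin.cons_succ] using this
      rw [h0, h2]
    · intro f hf
      simp only [Finset.mem_filter, Finset.mem_univ, true_and] at hf
      refine ⟨⟨f 0, Fin.tail f⟩, ?_, Fin.cons_self_tail f⟩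
      simp only [Finset.mem_sigma, Finset.mem_univ, true_and, Finset.mem_filter]
      exact (surj_cons _ _).1 (by rw [Fin.cons_self_tail]; exact hf)
  rw [h1, Finset.sum_congr rfl fun y _ => surj_fix y, Finset.sum_const, Finset.card_univ,
    Fintype.card_fin, smul_eq_mul]

private theorem surj_zero (c : ℕ) :
    #{f : Fin (c + 1) → Fin 0 | Function.Surjective f} = 0 := by
  rw [Finset.card_eq_zero, Finset.filter_eq_empty_iff]
  intro f
  exact (f 0).elim0

private theorem surj_lt {c j : ℕ} (h : c < j) :
    #{f : Fin c → Fin j | Function.Surjective f} = 0 := by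
  rw [Finset.card_eq_zero, Finset.filter_eq_empty_iff]
  intro f _ hf
  have := Fintype.card_le_of_surjective f hf
  simp only [Fintype.card_fin] at this
  omega

/-- Piece E4. The alternating sum of the numbers of surjections.  For instance by induction on `c`:
a surjection `Fin (c + 1) → Fin j` is a value at the last point and a map on `Fin c` that is
surjective or misses exactly this value, so `s (c + 1) j = j * (s c j + s c (j - 1))`, hence
`∑ j, (-1) ^ j * s (c + 1) j = ∑ j, (-1) ^ j * j * s c j - ∑ j, (-1) ^ j * (j + 1) * s c j`.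
(Or through the inclusion exclusion formula; Mathlib may have the number of surjections or the
Stirling numbers `Nat.stirlingSecond`.) -/
theorem surj_alt (c n : ℕ) (h : c ≤ n) :
    ∑ j ∈ range (n + 1), (-1 : ℂ) ^ j * (#{f : Fin c → Fin j | Function.Surjective f} : ℂ) =
      (-1) ^ c := by
  induction c generalizing n with
  | zero =>
    rw [Finset.sum_eq_single 0]
    · have : #{f : Fin 0 → Fin 0 | Function.Surjective f} = 1 := by decide
      rw [this]
      simp
    · intro j _ hj
      rw [surj_lt (Nat.pos_of_ne_zero hj)]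
      simp
    · intro h0
      exact absurd (Finset.mem_range.2 (Nat.succ_pos n)) h0
  | succ c ih =>
    obtain ⟨n, rfl⟩ : ∃ m, n = m + 1 := ⟨n - 1, by omega⟩
    have hc : c ≤ n := by omega
    have key : ∀ N : ℕ, ∑ j ∈ range (N + 1), (-1 : ℂ) ^ j *
        (#{f : Fin (c + 1) → Fin j | Function.Surjective f} : ℂ) =
        (-1) ^ N * N * (#{f : Fin c → Fin N | Function.Surjective f} : ℂ) -
          ∑ j ∈ range N, (-1 : ℂ) ^ j * (#{f : Fin c → Fin j | Function.Surjective f} : ℂ) := by
      intro N
      induction N with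
      | zero =>
        rw [Finset.sum_range_one, surj_zero]
        simp
      | succ N ihN =>
        rw [Finset.sum_range_succ, ihN, surj_succ, Finset.sum_range_succ]
        push_cast
        ring
    rw [key (n + 1), ih n hc, surj_lt (by omega : c < n + 1)]
    simp [pow_succ]

end Pool.Agent.Helper26.DR
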