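import Pool.Agent.Helper26.DR.St.ColA
import Pool.Agent.Helper26.DR.St.ColB
import Pool.Agent.Helper26.DR.St.ColC
import Pool.Agent.Helper26.DR.St.Surj

set_option autoImplicit false

namespace Pool.Agent.Helper26.DR

open Equiv Finset

theorem detCol_expand {n j : ℕ} (s : Fin n → Fin (j + 1)) (A : Matrix (Fin n) (Fin n) ℂ) :
    ct s A = ∑ φ : Fin n → Fin n, (cs s * ∏ i, cw s i (φ i)) * ∏ i, A i (φ i) := by
  unfold ct
  rw [Finset.prod_univ_sum, Fintype.piFinset_univ, mul_sum]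
  refine sum_congr rfl fun φ _ => ?_
  rw [prod_mul_distrib]
  ring

theorem detCol_card_le {n : ℕ} (σ : Perm (Fin n)) : Multiset.card σ.cycleType ≤ n := by
  have h1 : Multiset.card σ.cycleType • 2 ≤ σ.cycleType.sum :=
    Multiset.card_nsmul_le_sum fun x hx => Equiv.Perm.two_le_of_mem_cycleType hx
  have h2 : σ.cycleType.sum = #σ.support := Equiv.Perm.sum_cycleType σ
  have h3 : #σ.support ≤ n := by
    calc #σ.support ≤ #(univ : Finset (Fin n)) := card_le_card (subset_univ _)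
      _ = n := by simp
  rw [smul_eq_mul] at h1
  omega

theorem detCol_coef {n : ℕ} (σ : Perm (Fin n)) :
    ∑ j ∈ range (n + 1), (-1 : ℂ) ^ j * ∑ s ∈ XC n j, cs s * ∏ i, cw s i (σ i) = sg σ := by
  have h1 : ∀ j ∈ range (n + 1), (-1 : ℂ) ^ j * ∑ s ∈ XC n j, cs s * ∏ i, cw s i (σ i) =
      (-1) ^ #σ.support * ((-1 : ℂ) ^ j *
        (#{f : Fin (Multiset.card σ.cycleType) → Fin j | Function.Surjective f} : ℂ)) := by
    intro j _
    rw [col_perm, col_count]
    ring
  rw [sum_congr rfl h1, ← mul_sum, surj_alt _ _ (detCol_card_le σ), ← pow_add]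
  unfold sg
  rw [Equiv.Perm.sign_of_cycleType, Equiv.Perm.sum_cycleType]
  push_cast
  rfl

/-- Piece E6. The formula with set partitions (Houston, Goucher, Johnston).  Expand
`∏ i, ∑ l, cw s i l * A i l = ∑ φ : Fin n → Fin n, ∏ i, cw s i (φ i) * A i (φ i)`
(`Finset.prod_univ_sum`, `Fintype.piFinset_univ`), interchange the sums: the coefficient of
`∏ i, A i (φ i)` is zero if `φ` is not surjective (`col_nonsurj`), and for a permutation it is
`(-1) ^ #σ.support * ∑ j, (-1) ^ j * #surjections = (-1) ^ (#σ.support + card σ.cycleType) = sg σ`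
(`col_perm`, `col_count`, `surj_alt`, `Equiv.Perm.sign_of_cycleType`,
`Equiv.Perm.sum_cycleType`; `card σ.cycleType ≤ n`, for instance because the cycles have at least
two elements, `Equiv.Perm.two_le_of_mem_cycleType`). -/
theorem det_col (n : ℕ) (A : Matrix (Fin n) (Fin n) ℂ) :
    A.det = ∑ j ∈ range (n + 1), (-1 : ℂ) ^ j * ∑ s ∈ XC n j, ct s A := by
  classical
  let Kf : (Fin n → Fin n) → ℂ := fun φ =>
    ∑ j ∈ range (n + 1), (-1 : ℂ) ^ j * ∑ s ∈ XC n j, cs s * ∏ i, cw s i (φ i)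
  have h1 : ∑ j ∈ range (n + 1), (-1 : ℂ) ^ j * ∑ s ∈ XC n j, ct s A =
      ∑ φ : Fin n → Fin n, Kf φ * ∏ i, A i (φ i) := by
    have h2 : ∀ j ∈ range (n + 1), (-1 : ℂ) ^ j * ∑ s ∈ XC n j, ct s A =
        ∑ φ : Fin n → Fin n,
          ((-1 : ℂ) ^ j * ∑ s ∈ XC n j, cs s * ∏ i, cw s i (φ i)) * ∏ i, A i (φ i) := by
      intro j _
      simp only [detCol_expand]
      rw [sum_comm, mul_sum]
      refine sum_congr rfl fun φ _ => ?_
      rw [← sum_mul]
      ring
    rw [sum_congr rfl h2, sum_comm]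
    refine sum_congr rfl fun φ _ => ?_
    rw [← sum_mul]
  rw [h1]
  have h3 : ∑ φ : Fin n → Fin n, Kf φ * ∏ i, A i (φ i) =
      ∑ φ ∈ univ.image (fun σ : Perm (Fin n) => (⇑σ : Fin n → Fin n)),
        Kf φ * ∏ i, A i (φ i) := by
    symm
    refine sum_subset (subset_univ _) fun φ _ hφ => ?_
    have hns : ¬ Function.Surjective φ := by
      intro hs
      apply hφ
      have hb : Function.Bijective φ := Finite.surjective_iff_bijective.mp hs
      exact mem_image.mpr ⟨Equiv.ofBijective φ hb, mem_univ _, rfl⟩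
    have hK : Kf φ = 0 := by
      refine sum_eq_zero fun j _ => ?_
      rw [col_nonsurj φ hns, mul_zero]
    rw [hK, zero_mul]
  rw [h3, sum_image (fun σ _ τ _ h => Equiv.coe_fn_injective h)]
  have h4 : A.det = ∑ σ : Perm (Fin n), sg σ * ∏ i, A i (σ i) := by
    rw [← Matrix.det_transpose, Matrix.det_apply']
    refine sum_congr rfl fun σ _ => ?_
    rfl
  rw [h4]
  refine sum_congr rfl fun σ _ => ?_
  have h5 : Kf (⇑σ) = sg σ := detCol_coef σ
  rw [h5]

end Pool.Agent.Helper26.DR
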