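import Pool.Agent.Helper26.DR.Defs

set_option autoImplicit false

namespace Pool.Agent.Helper26.DR

open Equiv Finset

/-- Piece A1. Terms may be indexed by any finite type.  Transport along `Fintype.equivFin T`
(`Equiv.sum_comp`). -/
theorem RK.of_fintype {ι T : Type} [Fintype ι] [Fintype T] {D : Matrix ι ι ℂ → ℂ} (c : T → ℂ)
    (u : T → ι → ι → ℂ) (h : ∀ A : Matrix ι ι ℂ, D A = ∑ t, c t * ∏ i, ∑ j, u t i j * A i j) :
    RK ι D (Fintype.card T) := by
  classical
  refine ⟨fun t => c ((Fintype.equivFin T).symm t), fun t => u ((Fintype.equivFin T).symm t),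
    fun A => ?_⟩
  rw [h A]
  exact (Equiv.sum_comp (Fintype.equivFin T).symm
    (fun t => c t * ∏ i, ∑ j, u t i j * A i j)).symm

/-- Piece A2. Add zero terms.  For instance through `of_fintype` with the type
`Fin r ⊕ Fin (r' - r)` and coefficients zero on the second summand. -/
theorem RK.mono {ι : Type} [Fintype ι] {D : Matrix ι ι ℂ → ℂ} {r r' : ℕ} (h : RK ι D r)
    (hr : r ≤ r') : RK ι D r' := by
  obtain ⟨c, u, h⟩ := h
  have key := RK.of_fintype (T := Fin r ⊕ Fin (r' - r)) (D := D)
    (fun t => Sum.elim c (fun _ => 0) t) (fun t => Sum.elim u (fun _ _ _ => 0) t) (fun A => by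
      rw [h A, Fintype.sum_sum_type]
      simp)
  rwa [Fintype.card_sum, Fintype.card_fin, Fintype.card_fin, Nat.add_sub_cancel' hr] at key

/-- Piece A3. Scalar multiples. -/
theorem RK.smul {ι : Type} [Fintype ι] {D : Matrix ι ι ℂ → ℂ} {r : ℕ} (h : RK ι D r) (a : ℂ) :
    RK ι (fun A => a * D A) r := by
  obtain ⟨c, u, h⟩ := h
  refine ⟨fun t => a * c t, u, fun A => ?_⟩
  show a * D A = _
  rw [h A, Finset.mul_sum]
  refine Finset.sum_congr rfl fun t _ => ?_
  rw [mul_assoc]

/-- Piece A4. Finite sums: if all `D x`, `x ∈ s`, need at most `r x` terms then the sum needs at most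
`∑ x ∈ s, r x` terms (through `of_fintype` with the sigma type `Σ x : s, Fin (r x)` or by induction
on `s`). -/
theorem RK.sum {ι X : Type} [Fintype ι] (s : Finset X) (D : X → Matrix ι ι ℂ → ℂ) (r : X → ℕ)
    (h : ∀ x ∈ s, RK ι (D x) (r x)) : RK ι (fun A => ∑ x ∈ s, D x A) (∑ x ∈ s, r x) := by
  classical
  choose c u hc using fun x : s => h x.1 x.2
  have key := RK.of_fintype (T := Σ x : s, Fin (r x)) (D := fun A => ∑ x ∈ s, D x A)
    (fun t => c t.1 t.2) (fun t => u t.1 t.2) (fun A => by
      rw [Fintype.sum_sigma]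
      rw [← Finset.sum_coe_sort s (fun x => D x A)]
      exact Finset.sum_congr rfl fun x _ => hc x A)
  have hcard : Fintype.card (Σ x : s, Fin (r x)) = ∑ x ∈ s, r x := by
    rw [Fintype.card_sigma, ← Finset.sum_coe_sort s r]
    exact Finset.sum_congr rfl fun x _ => Fintype.card_fin _
  rwa [hcard] at key

end Pool.Agent.Helper26.DR
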