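import Pool.Agent.Helper26.DR.Defs
import Pool.Agent.Helper26.DR.St.BasicA

set_option autoImplicit false

namespace Pool.Agent.Helper26.DR

open Equiv Finset

private def colOrbit_act {j : ℕ} (ρ : Perm (Fin j)) : Fin (j + 1) → Fin (j + 1) :=
  Fin.cases 0 (fun c => (ρ c).succ)

private theorem colOrbit_act_zero {j : ℕ} (ρ : Perm (Fin j)) : colOrbit_act ρ 0 = 0 := rfl

private theorem colOrbit_act_succ {j : ℕ} (ρ : Perm (Fin j)) (c : Fin j) :
    colOrbit_act ρ c.succ = (ρ c).succ := rfl

private theorem colOrbit_act_mul {j : ℕ} (ρ τ : Perm (Fin j)) (x : Fin (j + 1)) :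
    colOrbit_act (ρ * τ) x = colOrbit_act ρ (colOrbit_act τ x) := by
  refine Fin.cases ?_ (fun c => ?_) x
  · rfl
  · rfl

private theorem colOrbit_act_one {j : ℕ} (x : Fin (j + 1)) :
    colOrbit_act (1 : Perm (Fin j)) x = x := by
  refine Fin.cases ?_ (fun c => ?_) x
  · rfl
  · rfl

private theorem colOrbit_act_inv {j : ℕ} (ρ : Perm (Fin j)) (x : Fin (j + 1)) :
    colOrbit_act ρ⁻¹ (colOrbit_act ρ x) = x := by
  rw [← colOrbit_act_mul, inv_mul_cancel, colOrbit_act_one]

private theorem colOrbit_act_inv' {j : ℕ} (ρ : Perm (Fin j)) (x : Fin (j + 1)) :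
    colOrbit_act ρ (colOrbit_act ρ⁻¹ x) = x := by
  rw [← colOrbit_act_mul, mul_inv_cancel, colOrbit_act_one]

private theorem colOrbit_act_inj {j : ℕ} (ρ : Perm (Fin j)) {x y : Fin (j + 1)} :
    colOrbit_act ρ x = colOrbit_act ρ y ↔ x = y := by
  constructor
  · intro h
    rw [← colOrbit_act_inv ρ x, h, colOrbit_act_inv]
  · rintro rfl
    rfl

private theorem colOrbit_act_eq_zero {j : ℕ} (ρ : Perm (Fin j)) {x : Fin (j + 1)} :
    colOrbit_act ρ x = 0 ↔ x = 0 := by
  rw [← colOrbit_act_zero ρ, colOrbit_act_inj, colOrbit_act_zero]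

private theorem colOrbit_cw {n j : ℕ} (ρ : Perm (Fin j)) (s : Fin n → Fin (j + 1)) (i l : Fin n) :
    cw (fun i => colOrbit_act ρ (s i)) i l = cw s i l := by
  unfold cw
  simp only [colOrbit_act_eq_zero, colOrbit_act_inj, ne_eq]

private theorem colOrbit_ct {n j : ℕ} (ρ : Perm (Fin j)) (s : Fin n → Fin (j + 1))
    (A : Matrix (Fin n) (Fin n) ℂ) :
    ct (fun i => colOrbit_act ρ (s i)) A = ct s A := by
  unfold ct
  simp only [colOrbit_cw]
  unfold cs
  simp only [colOrbit_act_eq_zero]

private theorem colOrbit_mem {n j : ℕ} (ρ : Perm (Fin j)) {s : Fin n → Fin (j + 1)}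
    (hs : s ∈ XC n j) : (fun i => colOrbit_act ρ (s i)) ∈ XC n j := by
  unfold XC at hs ⊢
  rw [mem_filter] at hs ⊢
  refine ⟨mem_univ _, fun c hc => ?_⟩
  obtain ⟨i, hi⟩ := hs.2 (colOrbit_act ρ⁻¹ c) (fun h => hc ((colOrbit_act_eq_zero ρ⁻¹).1 h))
  exact ⟨i, by show colOrbit_act ρ (s i) = c; rw [hi, colOrbit_act_inv']⟩

private theorem colOrbit_free {n j : ℕ} {ρ τ : Perm (Fin j)} {s : Fin n → Fin (j + 1)}
    (hs : s ∈ XC n j) (h : ∀ i, colOrbit_act ρ (s i) = colOrbit_act τ (s i)) : ρ = τ := by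
  unfold XC at hs
  rw [mem_filter] at hs
  ext c
  obtain ⟨i, hi⟩ := hs.2 c.succ (Fin.succ_ne_zero c)
  have := h i
  rw [hi, colOrbit_act_succ, colOrbit_act_succ] at this
  exact congrArg Fin.val (Fin.succ_injective _ this)

/-- Equality up to the names of the colours. -/
private def colOrbit_setoid (n j : ℕ) : Setoid (XC n j) where
  r s t := ∃ ρ : Perm (Fin j), ∀ i, t.1 i = colOrbit_act ρ (s.1 i)
  iseqv :=
    { refl := fun s => ⟨1, fun i => (colOrbit_act_one _).symm⟩
      symm := by
        rintro s t ⟨ρ, h⟩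
        exact ⟨ρ⁻¹, fun i => by rw [h i, colOrbit_act_inv]⟩
      trans := by
        rintro s t u ⟨ρ, h⟩ ⟨τ, h'⟩
        exact ⟨τ * ρ, fun i => by rw [h' i, h i, colOrbit_act_mul]⟩ }

/-- Piece E5. Renaming the colours.  The group `Perm (Fin j)` acts freely on `XC n j` by renaming
the colours `1, …, j` (`s i = 0` stays `0`, `s i = c.succ` becomes `(ρ c).succ`), and `ct s A` does
not change.  Hence `∑ s ∈ XC n j, ct s A` is `j!` times the sum over representatives of the
orbits, and the number of the orbits is `#(XC n j) / j! ≤ (j + 1) ^ n / j!` because every orbit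
has exactly `j!` elements. -/
theorem col_orbit (n j : ℕ) :
    RK (Fin n) (fun A => ∑ s ∈ XC n j, ct s A) ((j + 1) ^ n / j.factorial) := by
  classical
  let F : Fintype (Quotient (colOrbit_setoid n j)) := Fintype.ofFinite _
  -- the fibres
  have hfib : ∀ q : Quotient (colOrbit_setoid n j),
      ({s : XC n j | Quotient.mk (colOrbit_setoid n j) s = q} : Finset (XC n j)) =
        univ.image (fun ρ : Perm (Fin j) =>
          (⟨fun i => colOrbit_act ρ (q.out.1 i), colOrbit_mem ρ q.out.2⟩ : XC n j)) := by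
    intro q
    ext s
    rw [mem_filter, mem_image]
    constructor
    · rintro ⟨-, h⟩
      have h2 : Quotient.mk (colOrbit_setoid n j) q.out = Quotient.mk (colOrbit_setoid n j) s := by
        rw [h, Quotient.out_eq]
      obtain ⟨ρ, hρ⟩ := Quotient.exact h2
      exact ⟨ρ, mem_univ _, Subtype.ext (funext fun i => (hρ i).symm)⟩
    · rintro ⟨ρ, -, rfl⟩
      refine ⟨mem_univ _, ?_⟩
      conv_rhs => rw [← Quotient.out_eq q]
      apply Quotient.sound
      exact ⟨ρ⁻¹, fun i => by
        show q.out.1 i = colOrbit_act ρ⁻¹ (colOrbit_act ρ (q.out.1 i))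
        rw [colOrbit_act_inv]⟩
  have hinj : ∀ q : Quotient (colOrbit_setoid n j), Function.Injective
      (fun ρ : Perm (Fin j) =>
          (⟨fun i => colOrbit_act ρ (q.out.1 i), colOrbit_mem ρ q.out.2⟩ : XC n j)) := by
    intro q ρ τ h
    exact colOrbit_free q.out.2 (fun i => congrFun (congrArg Subtype.val h) i)
  have hcardfib : ∀ q : Quotient (colOrbit_setoid n j),
      #({s : XC n j | Quotient.mk (colOrbit_setoid n j) s = q} : Finset (XC n j)) =
        j.factorial := by
    intro q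
    rw [hfib, card_image_of_injective _ (hinj q), card_univ, Fintype.card_perm, Fintype.card_fin]
  have hcard : Fintype.card (Quotient (colOrbit_setoid n j)) * j.factorial ≤ (j + 1) ^ n := by
    have h1 : #(univ : Finset (XC n j)) = Fintype.card (Quotient (colOrbit_setoid n j)) *
        j.factorial := by
      rw [card_eq_sum_card_fiberwise (f := fun s => Quotient.mk (colOrbit_setoid n j) s)
        (t := univ) (fun _ _ => mem_coe.2 (mem_univ _)), sum_congr rfl (fun q _ => hcardfib q),
        sum_const, smul_eq_mul, card_univ]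
    rw [← h1, card_univ, Fintype.card_coe]
    calc #(XC n j) ≤ #(univ : Finset (Fin n → Fin (j + 1))) := card_le_card (subset_univ _)
      _ = (j + 1) ^ n := by rw [card_univ, Fintype.card_fun, Fintype.card_fin, Fintype.card_fin]
  have hle : Fintype.card (Quotient (colOrbit_setoid n j)) ≤ (j + 1) ^ n / j.factorial :=
    (Nat.le_div_iff_mul_le (Nat.factorial_pos j)).2 hcard
  refine RK.mono (RK.of_fintype (fun q : Quotient (colOrbit_setoid n j) =>
    (j.factorial : ℂ) * cs q.out.1) (fun q i l => cw q.out.1 i l) (fun A => ?_)) hle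
  have h1 : ∑ s ∈ XC n j, ct s A = ∑ s : XC n j, ct s.1 A := (sum_coe_sort (XC n j) _).symm
  rw [h1, ← sum_fiberwise_of_maps_to (s := (univ : Finset (XC n j)))
    (t := (univ : Finset (Quotient (colOrbit_setoid n j))))
    (g := fun s => Quotient.mk (colOrbit_setoid n j) s) (fun _ _ => mem_univ _)]
  refine sum_congr rfl (fun q _ => ?_)
  rw [hfib, sum_image (fun a _ b _ h => hinj q h)]
  rw [sum_congr rfl (fun ρ _ => colOrbit_ct ρ q.out.1 A), sum_const, card_univ, Fintype.card_perm,
    Fintype.card_fin, nsmul_eq_mul]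
  unfold ct
  ring

end Pool.Agent.Helper26.DR
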