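import Pool.Agent.Helper26.DR.St.BasicA
import Pool.Agent.Helper26.DR.St.Orbit
import Pool.Agent.Helper26.DR.St.DetCol

set_option autoImplicit false

namespace Pool.Agent.Helper26.DR

open Equiv Finset

/-- Piece E7. From `det_col`, `col_orbit`, `RK.smul`, `RK.sum`. -/
theorem TR.base (n : ℕ) : TR (Fin n) (bb n) := by
  have h : (Matrix.det : Matrix (Fin n) (Fin n) ℂ → ℂ) =
      fun A => ∑ j ∈ range (n + 1), (-1 : ℂ) ^ j * ∑ s ∈ XC n j, ct s A := by
    funext A
    exact det_col n A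
  unfold TR bb
  rw [h]
  exact RK.sum (range (n + 1)) (fun j A => (-1 : ℂ) ^ j * ∑ s ∈ XC n j, ct s A) _
    (fun j _ => (col_orbit n j).smul _)

end Pool.Agent.Helper26.DR
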