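import Pool.Agent.Helper26.DR.Defs

set_option autoImplicit false

namespace Pool.Agent.Helper26.DR

open Equiv Finset

/-- Piece A5. Reindexing along an equivalence of the index types: `A.det = (A.submatrix e e).det`
(`Matrix.det_submatrix_equiv_self`), then `Equiv.prod_comp`, `Equiv.sum_comp`. -/
theorem TR.congr {ι κ : Type} [Fintype ι] [DecidableEq ι] [Fintype κ] [DecidableEq κ] {r : ℕ}
    (e : ι ≃ κ) (h : TR ι r) : TR κ r := by
  obtain ⟨c, u, h⟩ := h
  refine ⟨c, fun t k l => u t (e.symm k) (e.symm l), fun A => ?_⟩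
  rw [← Matrix.det_submatrix_equiv_self e A, h (A.submatrix e e)]
  refine Finset.sum_congr rfl fun t _ => ?_
  congr 1
  rw [← Equiv.prod_comp e (fun k => ∑ l, u t (e.symm k) (e.symm l) * A k l)]
  refine Finset.prod_congr rfl fun i _ => ?_
  rw [← Equiv.sum_comp e (fun l => u t (e.symm (e i)) (e.symm l) * A (e i) l)]
  refine Finset.sum_congr rfl fun j _ => ?_
  rw [Equiv.symm_apply_apply, Equiv.symm_apply_apply]
  rfl

/-- Piece A6. Smaller matrices: for `A` of size `ι` take `Matrix.fromBlocks A 0 0 1` of size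
`ι ⊕ κ`, whose determinant is `A.det` (`Matrix.det_fromBlocks_zero₂₁`).  In the row `Sum.inl i` the
linear form is `∑ j, u t (inl i) (inl j) * A i j`, in the row `Sum.inr k` it is the constant
`u t (inr k) (inr k)`; collect the constants in the coefficient. -/
theorem TR.of_sum {ι κ : Type} [Fintype ι] [DecidableEq ι] [Fintype κ] [DecidableEq κ] {r : ℕ}
    (h : TR (ι ⊕ κ) r) : TR ι r := by
  obtain ⟨c, u, h⟩ := h
  refine ⟨fun t => c t * ∏ k : κ, u t (Sum.inr k) (Sum.inr k),
    fun t i j => u t (Sum.inl i) (Sum.inl j), fun A => ?_⟩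
  have h1 := h (Matrix.fromBlocks A 0 0 1)
  rw [Matrix.det_fromBlocks_zero₂₁, Matrix.det_one, mul_one] at h1
  rw [h1]
  refine Finset.sum_congr rfl fun t _ => ?_
  rw [Fintype.prod_sum_type]
  have e1 : ∀ i : ι, ∑ y, u t (Sum.inl i) y * Matrix.fromBlocks A 0 0 (1 : Matrix κ κ ℂ) (Sum.inl i) y =
      ∑ j, u t (Sum.inl i) (Sum.inl j) * A i j := by
    intro i
    rw [Fintype.sum_sum_type]
    simp
  have e2 : ∀ k : κ, ∑ y, u t (Sum.inr k) y * Matrix.fromBlocks A 0 0 (1 : Matrix κ κ ℂ) (Sum.inr k) y =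
      u t (Sum.inr k) (Sum.inr k) := by
    intro k
    rw [Fintype.sum_sum_type]
    simp [Matrix.one_apply]
  simp only [e1, e2]
  ring

/-- Piece A7. Smaller matrices, from `TR.of_sum` and `TR.congr` with
`finSumFinEquiv : Fin m ⊕ Fin n ≃ Fin (m + n)`. -/
theorem TR.anti {n n' r : ℕ} (h : TR (Fin n') r) (hn : n ≤ n') : TR (Fin n) r := by
  have e : Fin n' ≃ Fin n ⊕ Fin (n' - n) :=
    (finSumFinEquiv.trans (finCongr (Nat.add_sub_cancel' hn))).symm
  exact TR.of_sum (TR.congr e h)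

end Pool.Agent.Helper26.DR
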