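import Pool.Agent.Helper26.DR.Defs
import Pool.Agent.Helper26.DR.St.BasicA

set_option autoImplicit false

namespace Pool.Agent.Helper26.DR

open Equiv Finset

private theorem block_eq_det {ι Γ : Type} [Fintype ι] [DecidableEq ι] [DecidableEq Γ]
    (g : ι → Γ) (A : Matrix ι ι ℂ) :
    PF (eps g) A = Matrix.det (Matrix.of fun i j => if g i = g j then A i j else 0) := by
  rw [← Matrix.det_transpose, Matrix.det_apply', PF]
  refine Finset.sum_congr rfl fun σ _ => ?_
  simp only [Matrix.transpose_apply, Matrix.of_apply]
  by_cases h : ∀ i, g (σ i) = g i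
  · rw [eps, if_pos h, sg]
    congr 1
    refine Finset.prod_congr rfl fun i _ => ?_
    rw [if_pos (h i).symm]
  · rw [eps, if_neg h, zero_mul]
    push Not at h
    obtain ⟨i, hi⟩ := h
    rw [Finset.prod_eq_zero (Finset.mem_univ i) (if_neg fun h' => hi h'.symm), mul_zero]

/-- Piece B3. Block diagonal determinants.  Let `g i = (e i).1`.  `PF (eps g) A` is the determinant
of the matrix `A` with all entries outside the blocks replaced by `0`, that is the product over
`a : Γ` of the determinants of the blocks `fun p q : κ => A (e.symm (a, p)) (e.symm (a, q))`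
(`Matrix.det_blockDiagonal`, `Matrix.det_submatrix_equiv_self`; or directly).  Insert the expansion
of the determinants of the blocks (`Finset.prod_univ_sum`): the terms are indexed by
`Γ → Fin r`, the coefficient is `∏ a, c (t a)` and the matrix has entry
`if (e i).1 = (e j).1 then u (t (e i).1) (e i).2 (e j).2 else 0`. -/
theorem RK.block {ι κ Γ : Type} [Fintype ι] [DecidableEq ι] [Fintype κ] [DecidableEq κ]
    [Fintype Γ] [DecidableEq Γ] {r : ℕ} (e : ι ≃ Γ × κ) (h : TR κ r) :
    RK ι (PF (eps fun i => (e i).1)) (r ^ Fintype.card Γ) := by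
  obtain ⟨c, u, hcu⟩ := h
  have hcard : Fintype.card (Γ → Fin r) = r ^ Fintype.card Γ := by
    rw [Fintype.card_fun, Fintype.card_fin]
  rw [← hcard]
  refine RK.of_fintype (fun t : Γ → Fin r => ∏ a, c (t a))
    (fun t i j => if (e i).1 = (e j).1 then u (t (e i).1) (e i).2 (e j).2 else 0) ?_
  intro A
  rw [block_eq_det]
  have h1 : (Matrix.of fun i j => if (e i).1 = (e j).1 then A i j else 0 : Matrix ι ι ℂ) =
      (Matrix.blockDiagonal (fun a : Γ => Matrix.of fun p q : κ =>
        A (e.symm (a, p)) (e.symm (a, q)))).submatrix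
        (e.trans (Equiv.prodComm Γ κ)) (e.trans (Equiv.prodComm Γ κ)) := by
    ext i j
    simp only [Matrix.of_apply, Matrix.submatrix_apply, Matrix.blockDiagonal_apply,
      Equiv.trans_apply, Equiv.prodComm_apply, Prod.snd_swap, Prod.fst_swap]
    by_cases hij : (e i).1 = (e j).1
    · rw [if_pos hij, if_pos hij]
      have hi : e.symm ((e i).1, (e i).2) = i := by simp
      have hj : e.symm ((e i).1, (e j).2) = j := by rw [hij]; simp
      rw [hi, hj]
    · rw [if_neg hij, if_neg hij]
  rw [h1, Matrix.det_submatrix_equiv_self, Matrix.det_blockDiagonal]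
  simp_rw [hcu]
  rw [Finset.prod_univ_sum, Fintype.piFinset_univ]
  refine Finset.sum_congr rfl fun t _ => ?_
  rw [Finset.prod_mul_distrib]
  congr 1
  rw [← Equiv.prod_comp e.symm, Fintype.prod_prod_type]
  refine Finset.prod_congr rfl fun a _ => Finset.prod_congr rfl fun p _ => ?_
  rw [← Equiv.sum_comp e.symm, Fintype.sum_prod_type]
  simp only [Equiv.apply_symm_apply, Matrix.of_apply]
  rw [Finset.sum_eq_single a]
  · simp
  · intro b _ hb
    refine Finset.sum_eq_zero fun q _ => ?_
    rw [if_neg (Ne.symm hb), zero_mul]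
  · intro ha
    exact absurd (Finset.mem_univ a) ha

end Pool.Agent.Helper26.DR
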