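import Pool.Agent.Helper26.DR.Defs

set_option autoImplicit false

namespace Pool.Agent.Helper26.DR

open Equiv Finset

variable {ι Γ Γ' : Type} [Fintype ι] [DecidableEq ι] [DecidableEq Γ] [DecidableEq Γ']

/-- Piece C4. The number of tables.  Every row of the table of a permutation is a function
`Γ' → ℕ` with sum `k = #{i | g i = a}`, the number of these is `(k + #Γ' - 1).choose k`
(`Sym.card_sym_eq_choose` with `Sym Γ' k`; or the cardinality of `Finset.finsuppAntidiag`, file
Mathlib/Algebra/Order/Antidiag/FinsuppEquiv.lean). -/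
theorem card_tab [Fintype Γ] [Fintype Γ'] (g : ι → Γ) (g' : ι → Γ') (k : ℕ)
    (hg : ∀ a, #{i : ι | g i = a} = k) :
    #(univ.image fun τ : Perm ι => tab g g' τ) ≤
      ((Fintype.card Γ' + k - 1).choose k) ^ Fintype.card Γ := by
  let R : Finset (Γ' → ℕ) :=
    ((univ : Finset Γ').finsuppAntidiag k).image fun f : Γ' →₀ ℕ => (f : Γ' → ℕ)
  have hR : #R ≤ (Fintype.card Γ' + k - 1).choose k := by
    refine card_image_le.trans (le_of_eq ?_)
    rw [card_finsuppAntidiag_nat_eq_choose, card_univ]
  have hsub : (univ.image fun τ : Perm ι => tab g g' τ) ⊆ Fintype.piFinset fun _ : Γ => R := by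
    intro t ht
    obtain ⟨τ, -, rfl⟩ := mem_image.1 ht
    rw [Fintype.mem_piFinset]
    intro a
    rw [mem_image]
    refine ⟨Finsupp.equivFunOnFinite.symm (tab g g' τ a), ?_, ?_⟩
    · rw [mem_finsuppAntidiag]
      refine ⟨?_, subset_univ _⟩
      rw [← hg a]
      have h1 := card_eq_sum_card_fiberwise (s := ({i : ι | g i = a} : Finset ι))
        (t := (univ : Finset Γ')) (f := fun i => g' (τ i)) (fun _ _ => mem_univ _)
      rw [h1]
      refine sum_congr rfl fun b _ => ?_
      rw [filter_filter]
      rfl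
    · rfl
  refine (card_le_card hsub).trans ?_
  rw [Fintype.card_piFinset, prod_const, card_univ]
  exact Nat.pow_le_pow_left hR _

end Pool.Agent.Helper26.DR
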