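import Pool.Agent.Helper26.DR.Defs

set_option autoImplicit false

namespace Pool.Agent.Helper26.DR

open Equiv Finset

/-- the colourings with nonzero term -/
private def colA_good {n j : ℕ} (x y : Fin n) (s : Fin n → Fin (j + 1)) : Prop :=
  s y ≠ 0 ∧ (s x = 0 ∨ s x = s y)

/-- the change of the colour of `x` -/
private def colA_t {n j : ℕ} (x y : Fin n) (s : Fin n → Fin (j + 1)) : Fin n → Fin (j + 1) :=
  Function.update s x (if s x = 0 then s y else 0)

private lemma colA_t_same {n j : ℕ} (x y : Fin n) (s : Fin n → Fin (j + 1)) :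
    colA_t x y s x = if s x = 0 then s y else 0 := by
  unfold colA_t
  rw [Function.update_self]

private lemma colA_t_ne {n j : ℕ} (x y : Fin n) (s : Fin n → Fin (j + 1)) {i : Fin n}
    (hi : i ≠ x) : colA_t x y s i = s i := by
  unfold colA_t
  rw [Function.update_of_ne hi]

private lemma colA_good_t {n j : ℕ} {x y : Fin n} (hxy : y ≠ x) {s : Fin n → Fin (j + 1)}
    (hs : colA_good x y s) : colA_good x y (colA_t x y s) := by
  obtain ⟨h1, h2⟩ := hs
  refine ⟨?_, ?_⟩
  · rw [colA_t_ne x y s hxy]; exact h1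
  · rw [colA_t_ne x y s hxy, colA_t_same]
    by_cases h : s x = 0
    · rw [if_pos h]; exact Or.inr rfl
    · rw [if_neg h]; exact Or.inl rfl

private lemma colA_t_t {n j : ℕ} {x y : Fin n} (hxy : y ≠ x) {s : Fin n → Fin (j + 1)}
    (hs : colA_good x y s) : colA_t x y (colA_t x y s) = s := by
  obtain ⟨h1, h2⟩ := hs
  funext i
  by_cases hi : i = x
  · subst hi
    rw [colA_t_same, colA_t_ne _ y s hxy, colA_t_same]
    by_cases h : s i = 0
    · rw [if_pos h, if_neg h1, h]
    · rw [if_neg h, if_pos rfl]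
      rcases h2 with h2 | h2
      · exact absurd h2 h
      · exact h2.symm
  · rw [colA_t_ne x y _ hi, colA_t_ne x y _ hi]

private lemma colA_t_neq {n j : ℕ} {x y : Fin n} {s : Fin n → Fin (j + 1)}
    (hs : colA_good x y s) : colA_t x y s ≠ s := by
  obtain ⟨h1, h2⟩ := hs
  intro h
  have h3 := congrFun h x
  rw [colA_t_same] at h3
  by_cases h4 : s x = 0
  · rw [if_pos h4, h4] at h3
    exact h1 h3
  · rw [if_neg h4] at h3
    exact h4 h3.symm

private lemma colA_t_mem {n j : ℕ} {x y : Fin n} (hxy : y ≠ x) {s : Fin n → Fin (j + 1)}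
    (hs : colA_good x y s) (hm : s ∈ XC n j) : colA_t x y s ∈ XC n j := by
  unfold XC at hm ⊢
  rw [Finset.mem_filter] at hm ⊢
  refine ⟨Finset.mem_univ _, fun c hc => ?_⟩
  obtain ⟨i, hi⟩ := hm.2 c hc
  by_cases hix : i = x
  · refine ⟨y, ?_⟩
    rw [colA_t_ne x y s hxy]
    subst hix
    rcases hs.2 with h2 | h2
    · exact absurd (hi.symm.trans h2) hc
    · rw [← h2, hi]
  · exact ⟨i, by rw [colA_t_ne x y s hix, hi]⟩

private lemma colA_cw_good {n j : ℕ} {x y : Fin n} (hxy : y ≠ x) {s : Fin n → Fin (j + 1)}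
    (hs : colA_good x y s) : cw s x y = 1 := by
  obtain ⟨h1, h2⟩ := hs
  unfold cw
  by_cases h : s x = 0
  · rw [if_pos h, if_pos (Or.inr h1)]
  · rw [if_neg h, if_pos]
    refine ⟨hxy, ?_⟩
    rcases h2 with h2 | h2
    · exact absurd h2 h
    · exact h2.symm

private lemma colA_good_of {n j : ℕ} {x y : Fin n} (hxy : y ≠ x) {s : Fin n → Fin (j + 1)}
    (hs : cw s x y ≠ 0) : colA_good x y s := by
  unfold cw at hs
  by_cases h : s x = 0
  · rw [if_pos h] at hs
    have h1 : y = x ∨ s y ≠ 0 := by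
      by_contra hc
      exact hs (if_neg hc)
    rcases h1 with h1 | h1
    · exact absurd h1 hxy
    · exact ⟨h1, Or.inl h⟩
  · rw [if_neg h] at hs
    have h1 : y ≠ x ∧ s y = s x := by
      by_contra hc
      exact hs (if_neg hc)
    exact ⟨by rw [h1.2]; exact h, Or.inr h1.2.symm⟩

private lemma colA_cs {n j : ℕ} {x y : Fin n} {s : Fin n → Fin (j + 1)}
    (hs : colA_good x y s) : cs (colA_t x y s) = - cs s := by
  unfold cs
  rw [← Finset.mul_prod_erase univ _ (Finset.mem_univ x),
    ← Finset.mul_prod_erase univ (fun i => if s i = 0 then (1 : ℂ) else -1) (Finset.mem_univ x)]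
  have h1 : ∏ i ∈ univ.erase x, (if colA_t x y s i = 0 then (1 : ℂ) else -1) =
      ∏ i ∈ univ.erase x, (if s i = 0 then (1 : ℂ) else -1) := by
    refine Finset.prod_congr rfl fun i hi => ?_
    rw [colA_t_ne x y s (Finset.ne_of_mem_erase hi)]
  rw [h1, ← neg_mul]
  congr 1
  rw [colA_t_same]
  by_cases h : s x = 0
  · rw [if_pos h, if_pos h, if_neg hs.1]
  · rw [if_neg h, if_neg h, if_pos rfl, neg_neg]

/-- Piece E1. Maps that are not surjective.  Let `x` be not in the image of `φ`; then `φ x ≠ x`.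
Sign reversing involution: if the term is not zero then `s (φ x) ≠ 0` and (`s x = 0` or
`s x = s (φ x)`); replace `s x` by `s (φ x)` if `s x = 0` and by `0` otherwise
(`Function.update`).  The factor at `x` stays `1`, the factors at `i ≠ x` do not change because
`φ i ≠ x`, the colour of `φ x` is still used, and `cs` changes its sign.  (`Finset.sum_involution`
on the subset of the `s` of this kind; the other terms are zero.) -/
theorem col_nonsurj {n j : ℕ} (φ : Fin n → Fin n) (hφ : ¬ Function.Surjective φ) :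
    ∑ s ∈ XC n j, cs s * ∏ i, cw s i (φ i) = 0 := by
  classical
  obtain ⟨x, hx⟩ : ∃ x, ∀ i, φ i ≠ x := by
    by_contra hc
    push Not at hc
    exact hφ hc
  have hxy : φ x ≠ x := hx x
  have hfilter : ∑ s ∈ XC n j, cs s * ∏ i, cw s i (φ i) =
      ∑ s ∈ (XC n j).filter (fun s => colA_good x (φ x) s), cs s * ∏ i, cw s i (φ i) := by
    symm
    apply Finset.sum_filter_of_ne
    intro s _ hne
    apply colA_good_of hxy
    intro h0
    exact hne (by rw [Finset.prod_eq_zero (Finset.mem_univ x) h0, mul_zero])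
  rw [hfilter]
  refine Finset.sum_involution (fun s _ => colA_t x (φ x) s) ?_ ?_ ?_ ?_
  · intro s hs
    have hg := (Finset.mem_filter.mp hs).2
    have hprod : ∏ i, cw (colA_t x (φ x) s) i (φ i) = ∏ i, cw s i (φ i) := by
      refine Finset.prod_congr rfl fun i _ => ?_
      by_cases hi : i = x
      · rw [hi, colA_cw_good hxy hg, colA_cw_good hxy (colA_good_t hxy hg)]
      · unfold cw
        rw [colA_t_ne x (φ x) s hi, colA_t_ne x (φ x) s (hx i)]
    rw [hprod, colA_cs hg]
    ring
  · intro s hs _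
    exact colA_t_neq (Finset.mem_filter.mp hs).2
  · intro s hs
    rw [Finset.mem_filter] at hs ⊢
    exact ⟨colA_t_mem hxy hs.2 hs.1, colA_good_t hxy hs.2⟩
  · intro s hs
    exact colA_t_t hxy (Finset.mem_filter.mp hs).2

end Pool.Agent.Helper26.DR
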