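import Pool.Agent.Helper26.DR.Defs
import Pool.Agent.Helper26.DR.St.BasicA

set_option autoImplicit false

namespace Pool.Agent.Helper26.DR

open Equiv Finset

/-- Piece B1. Convolution.  Let `c, u` be the data for `f` and `d, v` the data for `f'`.  The terms
are indexed by `Fin r × Fin r'` (`finProdFinEquiv`), the coefficient is `c t * d w` and the matrix
is `∑ l, u t i l * v w l j`.  Indeed for fixed `w` put `X i l = ∑ j, v w l j * A i j`; then
`∑ t, c t * ∏ i, ∑ l, u t i l * X i l = PF f X = ∑ π, f π * ∏ i, ∑ j, v w (π i) j * A i j`, the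
product over `i` may be reindexed by `l = π i` and becomes `∏ l, ∑ j, v w l j * A (π⁻¹ l) j`, and
the sum over `w` of `d w` times it is `PF f' (A.submatrix π⁻¹ id)
= ∑ κ, f' κ * ∏ l, A (π⁻¹ l) (κ l) = ∑ κ, f' κ * ∏ i, A i (κ (π i))`; put `σ = κ * π`. -/
theorem RK.conv {ι : Type} [Fintype ι] [DecidableEq ι] {f f' : Perm ι → ℂ} {r r' : ℕ}
    (h : RK ι (PF f) r) (h' : RK ι (PF f') r') :
    RK ι (PF fun σ => ∑ π, f π * f' (σ * π⁻¹)) (r * r') := by
  obtain ⟨c, u, hu⟩ := h
  obtain ⟨d, v, hv⟩ := h'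
  have hcard : Fintype.card (Fin r × Fin r') = r * r' := by simp
  rw [← hcard]
  refine RK.of_fintype (fun p : Fin r × Fin r' => c p.1 * d p.2)
    (fun p i j => ∑ l, u p.1 i l * v p.2 l j) fun A => ?_
  -- the inner sum for fixed `π`
  have key : ∀ π : Perm ι, ∑ w, d w * ∏ i, ∑ j, v w (π i) j * A i j =
      ∑ σ : Perm ι, f' (σ * π⁻¹) * ∏ i, A i (σ i) := by
    intro π
    have h1 : ∀ w, ∏ i, ∑ j, v w (π i) j * A i j =
        ∏ l, ∑ j, v w l j * (Matrix.submatrix A (π⁻¹ : Perm ι) id) l j := by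
      intro w
      rw [← Equiv.prod_comp π (fun l => ∑ j, v w l j * (Matrix.submatrix A (π⁻¹ : Perm ι) id) l j)]
      refine Finset.prod_congr rfl fun i _ => Finset.sum_congr rfl fun j _ => ?_
      rw [Matrix.submatrix_apply, Perm.inv_def, Equiv.symm_apply_apply, id]
    simp only [h1]
    rw [← hv, PF]
    rw [← Equiv.sum_comp (Equiv.mulRight π⁻¹)
      (fun κ : Perm ι => f' κ * ∏ i, (Matrix.submatrix A (π⁻¹ : Perm ι) id) i (κ i))]
    refine Finset.sum_congr rfl fun σ _ => ?_
    rw [Equiv.coe_mulRight]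
    congr 1
    rw [← Equiv.prod_comp π (fun l => (Matrix.submatrix A (π⁻¹ : Perm ι) id) l ((σ * π⁻¹) l))]
    refine Finset.prod_congr rfl fun i _ => ?_
    rw [Matrix.submatrix_apply, id, Perm.mul_apply, Perm.inv_def, Equiv.symm_apply_apply]
  have hL : PF (fun σ => ∑ π, f π * f' (σ * π⁻¹)) A =
      ∑ π : Perm ι, f π * ∑ σ : Perm ι, f' (σ * π⁻¹) * ∏ i, A i (σ i) := by
    rw [PF]
    simp only [Finset.sum_mul, Finset.mul_sum]
    rw [Finset.sum_comm]
    refine Finset.sum_congr rfl fun π _ => Finset.sum_congr rfl fun σ _ => ?_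
    ring
  have hR : ∑ p : Fin r × Fin r', c p.1 * d p.2 *
      ∏ i, ∑ j, (∑ l, u p.1 i l * v p.2 l j) * A i j =
      ∑ π : Perm ι, f π * ∑ w, d w * ∏ i, ∑ j, v w (π i) j * A i j := by
    rw [Fintype.sum_prod_type_right]
    have h2 : ∀ w, ∑ t, c t * d w * ∏ i, ∑ j, (∑ l, u t i l * v w l j) * A i j =
        d w * PF f (Matrix.of fun i l => ∑ j, v w l j * A i j) := by
      intro w
      rw [hu, Finset.mul_sum]
      refine Finset.sum_congr rfl fun t _ => ?_
      have h3 : ∏ i, ∑ j, (∑ l, u t i l * v w l j) * A i j =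
          ∏ i, ∑ l, u t i l * (Matrix.of fun i l => ∑ j, v w l j * A i j) i l := by
        simp only [Matrix.of_apply]
        refine Finset.prod_congr rfl fun i _ => ?_
        simp only [Finset.sum_mul, Finset.mul_sum]
        rw [Finset.sum_comm]
        refine Finset.sum_congr rfl fun l _ => Finset.sum_congr rfl fun j _ => ?_
        ring
      rw [h3]
      ring
    simp only [h2, PF, Matrix.of_apply, Finset.mul_sum]
    rw [Finset.sum_comm]
    refine Finset.sum_congr rfl fun π _ => Finset.sum_congr rfl fun w _ => ?_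
    ring
  rw [hL, hR]
  exact Finset.sum_congr rfl fun π _ => by rw [key π]

end Pool.Agent.Helper26.DR
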