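import Pool.Agent.Helper26.DR.Defs

set_option autoImplicit false

namespace Pool.Agent.Helper26.DR

open Equiv Finset

variable {ι Γ Γ' : Type} [Fintype ι] [DecidableEq ι] [DecidableEq Γ] [DecidableEq Γ']

private lemma coset_sg_mul (σ τ : Perm ι) : sg (σ * τ) = sg σ * sg τ := by
  unfold sg
  rw [Perm.sign_mul]
  push_cast
  ring

private lemma coset_sg_inv (σ : Perm ι) : sg σ⁻¹ = sg σ := by
  unfold sg
  rw [Perm.sign_inv]

private lemma coset_sg_sq (σ : Perm ι) : sg σ * sg σ = 1 := by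
  rw [← coset_sg_inv σ]
  nth_rewrite 2 [coset_sg_inv σ]
  rw [← coset_sg_mul, inv_mul_cancel]
  simp [sg]

private lemma coset_eps_left (g : ι → Γ) (π₀ π : Perm ι) (h : ∀ i, g (π₀ i) = g i) :
    eps g (π₀⁻¹ * π) = sg π₀ * eps g π := by
  have h1 : ∀ i, g (π₀⁻¹ i) = g i := by
    intro i
    have h2 := h (π₀⁻¹ i)
    have h3 : π₀ (π₀⁻¹ i) = i := π₀.apply_symm_apply i
    rw [h3] at h2
    exact h2.symm
  unfold eps
  by_cases hc : ∀ i, g (π i) = g i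
  · rw [if_pos hc, if_pos, coset_sg_mul, coset_sg_inv]
    intro i
    rw [Perm.mul_apply, h1, hc]
  · rw [if_neg hc, if_neg, mul_zero]
    intro hc'
    apply hc
    intro i
    have h2 := hc' i
    rw [Perm.mul_apply, h1] at h2
    exact h2

private lemma coset_eps_right (g : ι → Γ) (π₀ π : Perm ι) (h : ∀ i, g (π₀ i) = g i) :
    eps g (π * π₀⁻¹) = sg π₀ * eps g π := by
  unfold eps
  by_cases hc : ∀ i, g (π i) = g i
  · rw [if_pos hc, if_pos, coset_sg_mul, coset_sg_inv, mul_comm]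
    intro i
    have h3 : π₀ (π₀⁻¹ i) = i := π₀.apply_symm_apply i
    rw [Perm.mul_apply, hc, ← h (π₀⁻¹ i), h3]
  · rw [if_neg hc, if_neg, mul_zero]
    intro hc'
    apply hc
    intro i
    have h2 := hc' (π₀ i)
    have h3 : π₀⁻¹ (π₀ i) = i := π₀.symm_apply_apply i
    rw [Perm.mul_apply, h3] at h2
    rw [h2, h]

/-- Piece C2. `FT` is constant on double cosets: put `π = π₀⁻¹ * π'` in the sum and use that
`eps g (π₀⁻¹ * π') = sg π₀ * eps g π'`, `eps g' (x * κ₀⁻¹) = sg κ₀ * eps g' x`.  (For `κ₀`: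
`(κ₀ * τ * π₀)⁻¹ = π₀⁻¹ * τ⁻¹ * κ₀⁻¹`.) -/
theorem FT_coset (g : ι → Γ) (g' : ι → Γ') (τ π₀ κ₀ σ : Perm ι) (h : ∀ i, g (π₀ i) = g i)
    (h' : ∀ i, g' (κ₀ i) = g' i) : FT g g' (κ₀ * τ * π₀) σ = FT g g' τ σ := by
  unfold FT
  rw [← Equiv.sum_comp (Equiv.mulLeft π₀⁻¹)
    (fun π => eps g π * eps g' (σ * π⁻¹ * (κ₀ * τ * π₀)⁻¹))]
  have h1 : ∀ π : Perm ι, eps g (Equiv.mulLeft π₀⁻¹ π) *
      eps g' (σ * (Equiv.mulLeft π₀⁻¹ π)⁻¹ * (κ₀ * τ * π₀)⁻¹) =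
      (sg π₀ * sg κ₀) * (eps g π * eps g' (σ * π⁻¹ * τ⁻¹)) := by
    intro π
    have e1 : σ * (Equiv.mulLeft π₀⁻¹ π)⁻¹ * (κ₀ * τ * π₀)⁻¹ = σ * π⁻¹ * τ⁻¹ * κ₀⁻¹ := by
      simp only [Equiv.coe_mulLeft, mul_inv_rev, inv_inv]
      group
    rw [e1, coset_eps_right g' κ₀ _ h', Equiv.coe_mulLeft, coset_eps_left g π₀ π h]
    ring
  rw [Finset.sum_congr rfl fun π _ => h1 π, ← Finset.mul_sum, coset_sg_mul, coset_sg_mul]
  calc sg κ₀ * sg τ * sg π₀ * (sg π₀ * sg κ₀ * ∑ π, eps g π * eps g' (σ * π⁻¹ * τ⁻¹))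
      = (sg κ₀ * sg κ₀) * (sg π₀ * sg π₀) * (sg τ * ∑ π, eps g π * eps g' (σ * π⁻¹ * τ⁻¹)) := by
        ring
    _ = sg τ * ∑ π, eps g π * eps g' (σ * π⁻¹ * τ⁻¹) := by
        rw [coset_sg_sq, coset_sg_sq, one_mul, one_mul]

end Pool.Agent.Helper26.DR
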