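import Pool.Agent.Helper26.DR.St.NumA

set_option autoImplicit false

namespace Pool.Agent.Helper26.DR

open Equiv Finset

theorem numB_nat1 : 2999 ^ 2999 * 1001 * 190 * 1000 * 10 ^ 8090 * 1000 ^ 1000 ≤
    2000 ^ 839 * 1999 ^ 1999 * 27182818283 ^ 809 * 5247 ^ 1000 := by
  decide +kernel

theorem numB_nat2 : 27182818286 ^ 5247 ≤ 190 ^ 1000 * 10 ^ 52470 := by
  decide +kernel

/-- upper bound for the factorial -/
theorem numB_fact (n : ℕ) : ((n + 1).factorial : ℝ) * Real.exp 1 ^ (n + 1) ≤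
    Real.exp 1 * ((n + 1 : ℕ) : ℝ) ^ (n + 2) := by
  induction n with
  | zero => simp
  | succ n ih =>
    have hn : (0 : ℝ) < ((n + 1 : ℕ) : ℝ) := by positivity
    have h1 : Real.exp 1 * ((n + 1 : ℕ) : ℝ) ^ (n + 2) ≤ ((n + 2 : ℕ) : ℝ) ^ (n + 2) := by
      have h2 := Real.one_sub_inv_le_log_of_pos (x := ((n + 2 : ℕ) : ℝ) / ((n + 1 : ℕ) : ℝ))
        (by positivity)
      have h3 : 1 ≤ ((n + 2 : ℕ) : ℝ) * Real.log (((n + 2 : ℕ) : ℝ) / ((n + 1 : ℕ) : ℝ)) := by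
        have h4 : 1 - (((n + 2 : ℕ) : ℝ) / ((n + 1 : ℕ) : ℝ))⁻¹ = 1 / ((n + 2 : ℕ) : ℝ) := by
          push_cast
          field_simp
          ring
        rw [h4] at h2
        have h5 : (0 : ℝ) < ((n + 2 : ℕ) : ℝ) := by positivity
        rw [div_le_iff₀ h5] at h2
        linarith
      have h6 : Real.exp 1 ≤ (((n + 2 : ℕ) : ℝ) / ((n + 1 : ℕ) : ℝ)) ^ (n + 2) := by
        have h7 : (0 : ℝ) < ((n + 2 : ℕ) : ℝ) / ((n + 1 : ℕ) : ℝ) := by positivity
        calc Real.exp 1 ≤ Real.exp (((n + 2 : ℕ) : ℝ) *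
              Real.log (((n + 2 : ℕ) : ℝ) / ((n + 1 : ℕ) : ℝ))) := Real.exp_le_exp.mpr h3
          _ = (((n + 2 : ℕ) : ℝ) / ((n + 1 : ℕ) : ℝ)) ^ (n + 2) := by
            rw [Real.exp_nat_mul, Real.exp_log h7]
      rw [div_pow, le_div_iff₀ (by positivity)] at h6
      exact h6
    have h8 : ((n + 1 + 1).factorial : ℝ) = ((n + 2 : ℕ) : ℝ) * ((n + 1).factorial : ℝ) := by
      rw [Nat.factorial_succ]; push_cast; ring
    have he : 0 < Real.exp 1 := Real.exp_pos 1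
    calc ((n + 1 + 1).factorial : ℝ) * Real.exp 1 ^ (n + 1 + 1)
        = ((n + 2 : ℕ) : ℝ) * Real.exp 1 *
          (((n + 1).factorial : ℝ) * Real.exp 1 ^ (n + 1)) := by rw [h8]; ring
      _ ≤ ((n + 2 : ℕ) : ℝ) * Real.exp 1 * (Real.exp 1 * ((n + 1 : ℕ) : ℝ) ^ (n + 2)) := by
        gcongr
      _ ≤ ((n + 2 : ℕ) : ℝ) * Real.exp 1 * ((n + 2 : ℕ) : ℝ) ^ (n + 2) := by
        gcongr
      _ = Real.exp 1 * ((n + 1 + 1 : ℕ) : ℝ) ^ (n + 1 + 2) := by ring

/-- upper bound for the binomial coefficient -/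
theorem numB_choose (a b : ℕ) : (a + b).choose a * (a ^ a * b ^ b) ≤ (a + b) ^ (a + b) := by
  rw [add_pow a b (a + b)]
  have h : a ^ a * b ^ (a + b - a) * (a + b).choose a ≤
      ∑ m ∈ range (a + b + 1), a ^ m * b ^ (a + b - m) * (a + b).choose m :=
    Finset.single_le_sum (f := fun m => a ^ m * b ^ (a + b - m) * (a + b).choose m)
      (fun _ _ => Nat.zero_le _) (by simp)
  have h2 : a + b - a = b := by omega
  rw [h2] at h
  calc (a + b).choose a * (a ^ a * b ^ b) = a ^ a * b ^ b * (a + b).choose a := by ring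
    _ ≤ _ := h

theorem numB_exp : (5.247 : ℝ) ≤ Real.log 190 := by
  rw [Real.le_log_iff_exp_le (by norm_num)]
  have h1 : Real.exp 5.247 ^ 1000 = Real.exp 1 ^ 5247 := by
    rw [← Real.exp_nat_mul, ← Real.exp_nat_mul]
    congr 1
    norm_num
  have h2 : Real.exp 1 ^ 5247 ≤ (2.7182818286 : ℝ) ^ 5247 :=
    pow_le_pow_left₀ (Real.exp_pos 1).le Real.exp_one_lt_d9.le _
  have h3 : (2.7182818286 : ℝ) ^ 5247 ≤ 190 ^ 1000 := by
    have h4 : ((27182818286 ^ 5247 : ℕ) : ℝ) ≤ ((190 ^ 1000 * 10 ^ 52470 : ℕ) : ℝ) :=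
      Nat.cast_le.mpr numB_nat2
    rw [Nat.cast_mul, Nat.cast_pow, Nat.cast_pow, Nat.cast_pow] at h4
    have h5 : (2.7182818286 : ℝ) = ((27182818286 : ℕ) : ℝ) / (10 : ℝ) ^ 10 := by norm_num
    have e1 : ((190 : ℕ) : ℝ) = 190 := by norm_num
    have e2 : ((10 : ℕ) : ℝ) = 10 := by norm_num
    have e3 : 10 * 5247 = 52470 := by norm_num
    rw [h5, div_pow, div_le_iff₀ (by positivity), ← pow_mul, e3]
    rw [e1, e2] at h4
    exact h4
  have h6 : Real.exp 5.247 ^ 1000 ≤ 190 ^ 1000 := by rw [h1]; exact h2.trans h3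
  exact le_of_pow_le_pow_left₀ (by norm_num) (by norm_num) h6

/-- the bound for general parameters -/
theorem numB_bb (n : ℕ) (x : ℝ) (hx : 0 < x) :
    (bb (n + 1) : ℝ) * (Real.exp 1 ^ (n + 1) * x ^ (n + 1)) ≤
      (n + 2) * (Real.exp 1 * ((n + 1 : ℕ) : ℝ) ^ (n + 2)) * Real.exp (x + Real.exp x) := by
  have h1 := bb_le (n + 1) x hx
  have h2 := numB_fact n
  have hxn : 0 < x ^ (n + 1) := pow_pos hx _
  have he : 0 < Real.exp 1 ^ (n + 1) := pow_pos (Real.exp_pos 1) _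
  have h3 : (bb (n + 1) : ℝ) * x ^ (n + 1) ≤
      (n + 2) * (((n + 1).factorial : ℝ) * Real.exp (x + Real.exp x)) := by
    calc (bb (n + 1) : ℝ) * x ^ (n + 1) ≤ ((((n + 1 : ℕ) : ℝ) + 1) *
          (((n + 1).factorial : ℝ) * Real.exp (x + Real.exp x) / x ^ (n + 1))) * x ^ (n + 1) := by
          gcongr
      _ = (n + 2) * (((n + 1).factorial : ℝ) * Real.exp (x + Real.exp x)) := by
          push_cast
          field_simp
          ring
  calc (bb (n + 1) : ℝ) * (Real.exp 1 ^ (n + 1) * x ^ (n + 1))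
      = ((bb (n + 1) : ℝ) * x ^ (n + 1)) * Real.exp 1 ^ (n + 1) := by ring
    _ ≤ ((n + 2) * (((n + 1).factorial : ℝ) * Real.exp (x + Real.exp x))) *
        Real.exp 1 ^ (n + 1) := by gcongr
    _ = (n + 2) * (((n + 1).factorial : ℝ) * Real.exp 1 ^ (n + 1)) *
        Real.exp (x + Real.exp x) := by ring
    _ ≤ (n + 2) * (Real.exp 1 * ((n + 1 : ℕ) : ℝ) ^ (n + 2)) * Real.exp (x + Real.exp x) := by
        gcongr

/-- the numerical inequality over the reals -/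
theorem numB_real : (2999 : ℝ) ^ 2999 * (1001 * 1000 * 190) ≤
    (2000 : ℝ) ^ 839 * ((1999 : ℝ) ^ 1999 * (2.7182818283 : ℝ) ^ 809 * (5.247 : ℝ) ^ 1000) := by
  have h := (Nat.cast_le (α := ℝ)).mpr numB_nat1
  rw [Nat.cast_mul, Nat.cast_mul, Nat.cast_mul, Nat.cast_mul, Nat.cast_mul, Nat.cast_mul,
    Nat.cast_mul, Nat.cast_mul, Nat.cast_pow, Nat.cast_pow, Nat.cast_pow, Nat.cast_pow,
    Nat.cast_pow, Nat.cast_pow, Nat.cast_pow] at h
  have e1 : ((2999 : ℕ) : ℝ) = 2999 := by norm_num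
  have e2 : ((1001 : ℕ) : ℝ) = 1001 := by norm_num
  have e3 : ((190 : ℕ) : ℝ) = 190 := by norm_num
  have e4 : ((1000 : ℕ) : ℝ) = 1000 := by norm_num
  have e5 : ((10 : ℕ) : ℝ) = 10 := by norm_num
  have e6 : ((2000 : ℕ) : ℝ) = 2000 := by norm_num
  have e7 : ((1999 : ℕ) : ℝ) = 1999 := by norm_num
  have e8 : ((27182818283 : ℕ) : ℝ) = 2.7182818283 * 10 ^ 10 := by norm_num
  have e9 : ((5247 : ℕ) : ℝ) = 5.247 * 1000 := by norm_num
  rw [e1, e2, e3, e4, e5, e6, e7, e8, e9, mul_pow, mul_pow, ← pow_mul] at h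
  have e10 : 10 * 809 = 8090 := by norm_num
  rw [e10] at h
  have hA : (0 : ℝ) < (10 : ℝ) ^ 8090 := pow_pos (by norm_num) _
  have hB : (0 : ℝ) < (1000 : ℝ) ^ 1000 := pow_pos (by norm_num) _
  generalize (2999 : ℝ) ^ 2999 = a at h ⊢
  generalize (2000 : ℝ) ^ 839 = b at h ⊢
  generalize (1999 : ℝ) ^ 1999 = c at h ⊢
  generalize (2.7182818283 : ℝ) ^ 809 = d at h ⊢
  generalize (5.247 : ℝ) ^ 1000 = f at h ⊢
  generalize (10 : ℝ) ^ 8090 = u at h hA
  generalize (1000 : ℝ) ^ 1000 = v at h hB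
  have huv : 0 < u * v := mul_pos hA hB
  have h2 : (a * (1001 * 1000 * 190)) * (u * v) ≤ (b * (c * d * f)) * (u * v) := by
    calc (a * (1001 * 1000 * 190)) * (u * v) = a * 1001 * 190 * 1000 * u * v := by ring
      _ ≤ b * c * (d * u) * (f * v) := h
      _ = (b * (c * d * f)) * (u * v) := by ring
  exact le_of_mul_le_mul_right h2 huv

/-- Piece F3. The numerical inequality.  Take `x = log 190` in `bb_le`, so
`exp (x + exp x) = 190 * exp 190` and `exp 190 ≤ 2.7182818286 ^ 190` (`Real.exp_one_lt_d9`);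
`log 190 ≥ 5.247` (for instance from `exp 5.247 ≤ 190` through rational bounds for `exp 1`: it
suffices that `exp 1 ^ 5247 ≤ 190 ^ 1000`).  Also `(2999).choose 1000 ≤ (27/4) ^ 1000`: from
the binomial theorem
`(3000).choose 1000 * 1000 ^ 1000 * 2000 ^ 2000 ≤ 3000 ^ 3000`.  Logarithms: `log S0 ≤ 1909.6 +
4457.3 < 6377.1 < log (2000 ^ 839)`, so there is a margin of `exp 10`.  The factorial of `1000` can
be evaluated by `norm_num [Nat.factorial]` or `decide`, or bounded.  Everything becomes an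
inequality between explicit natural numbers with a few thousand digits (`norm_num`). -/
theorem S0_le : S0 ≤ 2000 ^ 839 := by
  -- the general inequality, with variables instead of numerals
  have key : ∀ K M : ℕ, M = 2000 → K = 1000 → S1 K M ≤ 2000 ^ 839 := by
    intro K M hM hK
    obtain ⟨n, hn⟩ : ∃ n, n = 999 := ⟨_, rfl⟩
    obtain ⟨m, hm⟩ : ∃ m, m = 1999 := ⟨_, rfl⟩
    have hKn : K = n + 1 := by omega
    have hMK : M + K - 1 = K + m := by omega
    rw [S1_eq, hMK]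
    set x : ℝ := Real.log 190 with hx
    have hx1 : (5.247 : ℝ) ≤ x := numB_exp
    have hx0 : 0 < x := by linarith [hx1, (by norm_num : (0 : ℝ) < 5.247)]
    have hex : Real.exp x = 190 := by rw [hx, Real.exp_log (by norm_num)]
    have h1 := numB_bb n x hx0
    have h2 := numB_choose K m
    have h2' : (((K + m).choose K : ℕ) : ℝ) * ((K : ℝ) ^ K * (m : ℝ) ^ m) ≤
        ((K : ℝ) + m) ^ (K + m) := by exact_mod_cast h2
    rw [← hKn] at h1
    have hE : Real.exp (x + Real.exp x) = 190 * Real.exp 1 ^ 190 := by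
      rw [Real.exp_add, hex, ← Real.exp_nat_mul]
      norm_num
    rw [hE] at h1
    have hE1 : (2.7182818283 : ℝ) ≤ Real.exp 1 := Real.exp_one_gt_d9.le
    have hnum : ((K : ℝ) + m) ^ (K + m) * (((n : ℝ) + 2) * K * 190) ≤
        (2000 : ℝ) ^ 839 * ((m : ℝ) ^ m * (2.7182818283 : ℝ) ^ 809 * (5.247 : ℝ) ^ K) := by
      have a1 : ((K : ℝ) + m) = 2999 := by rw [hK, hm]; norm_num
      have a2 : K + m = 2999 := by omega
      have a3 : ((n : ℝ) + 2) = 1001 := by rw [hn]; norm_num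
      have a4 : (K : ℝ) = 1000 := by rw [hK]; norm_num
      have a5 : (m : ℝ) = 1999 := by rw [hm]; norm_num
      rw [a1, a2, a3, a4, a5, hm, hK]
      exact numB_real
    have hK0 : (0 : ℝ) < (K : ℝ) := by rw [hK]; norm_num
    have hm0 : (0 : ℝ) < (m : ℝ) := by rw [hm]; norm_num
    have eK : Real.exp 1 ^ K = Real.exp 1 ^ 191 * Real.exp 1 ^ 809 := by
      rw [← pow_add]
      congr 1
    have e191 : Real.exp 1 * Real.exp 1 ^ 190 = Real.exp 1 ^ 191 := by
      rw [← pow_succ']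
    have eN : (K : ℝ) ^ (n + 2) = (K : ℝ) ^ K * K := by
      rw [← pow_succ]
      congr 1
      omega
    rw [eK, eN] at h1
    have hPK : (0 : ℝ) < (K : ℝ) ^ K := pow_pos hK0 _
    have hPm : (0 : ℝ) < (m : ℝ) ^ m := pow_pos hm0 _
    have hxK : (0 : ℝ) < x ^ K := pow_pos hx0 _
    have hmono1 : (5.247 : ℝ) ^ K ≤ x ^ K := pow_le_pow_left₀ (by norm_num) hx1 _
    have hmono2 : (2.7182818283 : ℝ) ^ 809 ≤ Real.exp 1 ^ 809 :=
      pow_le_pow_left₀ (by norm_num) hE1 _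
    have hp1 : (0 : ℝ) < (2.7182818283 : ℝ) ^ 809 := pow_pos (by norm_num) _
    have hp2 : (0 : ℝ) < (5.247 : ℝ) ^ K := pow_pos (by norm_num) _
    have hp3 : (0 : ℝ) < Real.exp 1 ^ 191 := pow_pos (Real.exp_pos 1) _
    have hB0 : (0 : ℝ) ≤ (bb K : ℝ) := Nat.cast_nonneg _
    have hC0 : (0 : ℝ) ≤ (((K + m).choose K : ℕ) : ℝ) := Nat.cast_nonneg _
    have hgoal : ((((K + m).choose K * bb K : ℕ)) : ℝ) ≤ ((2000 ^ 839 : ℕ) : ℝ) := by
      rw [Nat.cast_mul, Nat.cast_pow]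
      have e2000 : ((2000 : ℕ) : ℝ) = 2000 := by norm_num
      rw [e2000]
      generalize (2000 : ℝ) ^ 839 = T at hnum ⊢
      generalize (2.7182818283 : ℝ) ^ 809 = p at hnum hmono2 hp1
      generalize (5.247 : ℝ) ^ K = q at hnum hmono1 hp2
      have e191' := e191
      generalize Real.exp 1 ^ 191 = w at h1 hp3 e191'
      generalize Real.exp 1 ^ 190 = w' at h1 e191'
      generalize Real.exp 1 ^ 809 = y at h1 hmono2
      generalize (m : ℝ) ^ m = pm at h2' hnum hPm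
      generalize (K : ℝ) ^ K = pk at h1 h2' hPK
      generalize x ^ K = z at h1 hmono1 hxK
      generalize ((K : ℝ) + m) ^ (K + m) = Q at h2' hnum
      generalize (bb K : ℝ) = B at h1 hB0 ⊢
      generalize (((K + m).choose K : ℕ) : ℝ) = Ch at h2' hC0 ⊢
      have hy0 : 0 < y := lt_of_lt_of_le hp1 hmono2
      have s1 : (Ch * (pk * pm)) * (B * (w * y * z)) ≤
          Q * (((n : ℝ) + 2) * (Real.exp 1 * (pk * K)) * (190 * w')) := by
        apply mul_le_mul h2' h1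
        · positivity
        · exact le_trans (by positivity) h2'
      have s2 : (pk * w) * (Ch * B * (pm * y * z)) ≤ (pk * w) * (Q * (((n : ℝ) + 2) * K * 190)) := by
        calc (pk * w) * (Ch * B * (pm * y * z)) = (Ch * (pk * pm)) * (B * (w * y * z)) := by ring
          _ ≤ Q * (((n : ℝ) + 2) * (Real.exp 1 * (pk * K)) * (190 * w')) := s1
          _ = (pk * (Real.exp 1 * w')) * (Q * (((n : ℝ) + 2) * K * 190)) := by ring
          _ = (pk * w) * (Q * (((n : ℝ) + 2) * K * 190)) := by rw [e191']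
      have s3 : Ch * B * (pm * y * z) ≤ Q * (((n : ℝ) + 2) * K * 190) :=
        le_of_mul_le_mul_left s2 (mul_pos hPK hp3)
      have s4 : Ch * B * (pm * p * q) ≤ T * (pm * p * q) := by
        calc Ch * B * (pm * p * q) ≤ Ch * B * (pm * y * z) := by gcongr
          _ ≤ Q * (((n : ℝ) + 2) * K * 190) := s3
          _ ≤ T * (pm * p * q) := hnum
      exact le_of_mul_le_mul_right s4 (by positivity)
    exact Nat.cast_le.mp hgoal
  rw [S0_eq]
  exact key 1000 2000 rfl rfl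

end Pool.Agent.Helper26.DR
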