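import Pool.Agent.Helper26.DR.Defs
import Pool.Agent.Helper26.DR.St.BasicA

set_option autoImplicit false

namespace Pool.Agent.Helper26.DR

open Equiv Finset

/-- the determinant as a function on the symmetric group -/
theorem det_eq_PF {ι : Type} [Fintype ι] [DecidableEq ι] (A : Matrix ι ι ℂ) :
    A.det = PF (fun σ => sg σ) A := by
  rw [← Matrix.det_transpose, Matrix.det_apply']
  rfl

/-- Piece A8. The Leibniz formula (`Matrix.det_apply'`; terms indexed by `Perm (Fin n)` with `u`
the permutation matrix; beware that `Matrix.det_apply'` has the entries `A (σ i) i`, use the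
transpose `Matrix.det_transpose` or reindex by the inverse). -/
theorem TR.leibniz (n : ℕ) : TR (Fin n) n.factorial := by
  have h : Fintype.card (Perm (Fin n)) = n.factorial := by
    rw [Fintype.card_perm, Fintype.card_fin]
  have e : Perm (Fin n) ≃ Fin n.factorial := Fintype.equivFinOfCardEq h
  refine ⟨fun t => sg (e.symm t), fun t i j => if e.symm t i = j then 1 else 0, fun A => ?_⟩
  rw [det_eq_PF]
  unfold PF
  rw [← e.symm.sum_comp]
  refine Finset.sum_congr rfl fun t _ => ?_
  congr 1
  refine Finset.prod_congr rfl fun i _ => ?_
  simp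

end Pool.Agent.Helper26.DR
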