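import Pool.Agent.Helper26.DR.Defs

set_option autoImplicit false

namespace Pool.Agent.Helper26.DR

open Equiv Finset

variable {ι Γ Γ' : Type} [Fintype ι] [DecidableEq ι] [DecidableEq Γ] [DecidableEq Γ']

private theorem sumFT_sg_mul (σ τ : Perm ι) : sg (σ * τ) = sg σ * sg τ := by
  unfold sg
  rw [Perm.sign_mul]
  push_cast
  rfl

private theorem sumFT_sg_inv (σ : Perm ι) : sg σ⁻¹ = sg σ := by
  unfold sg
  rw [Perm.sign_inv]

private theorem sumFT_sg_sq (σ : Perm ι) : sg σ * sg σ = 1 := by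
  unfold sg
  rcases Int.units_eq_one_or (Perm.sign σ) with h | h <;> rw [h] <;> simp

private theorem sumFT_eps (g : ι → Γ) : ∑ π : Perm ι, sg π * eps g π = (yg g : ℂ) := by
  unfold yg
  rw [Finset.card_filter]
  push_cast
  refine Finset.sum_congr rfl fun π _ => ?_
  unfold eps
  by_cases h : ∀ i, g (π i) = g i
  · rw [if_pos h, if_pos h, sumFT_sg_sq]
  · rw [if_neg h, if_neg h, mul_zero]

/-- Piece C1. Averaging over all permutations.  Interchange the sums; for fixed `π` put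
`κ = σ * π⁻¹ * τ⁻¹`, so `τ = κ⁻¹ * σ * π⁻¹`, `sg τ = sg κ * sg σ * sg π`; the sum is
`sg σ * (∑ π, sg π * eps g π) * (∑ κ, sg κ * eps g' κ)` and `∑ π, sg π * eps g π = yg g`. -/
theorem sum_FT (g : ι → Γ) (g' : ι → Γ') (σ : Perm ι) :
    ∑ τ : Perm ι, FT g g' τ σ = (yg g : ℂ) * (yg g' : ℂ) * sg σ := by
  have h1 : ∀ ρ : Perm ι, ∑ τ : Perm ι, sg τ * eps g' (ρ * τ⁻¹) = sg ρ * (yg g' : ℂ) := by
    intro ρ
    rw [← sumFT_eps g', Finset.mul_sum]
    rw [← Equiv.sum_comp ((Equiv.inv (Perm ι)).trans (Equiv.mulRight ρ))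
      (fun τ => sg τ * eps g' (ρ * τ⁻¹))]
    refine Finset.sum_congr rfl fun κ _ => ?_
    have h2 : ((Equiv.inv (Perm ι)).trans (Equiv.mulRight ρ)) κ = κ⁻¹ * ρ := rfl
    rw [h2, mul_inv_rev, inv_inv, mul_inv_cancel_left, sumFT_sg_mul, sumFT_sg_inv]
    ring
  calc ∑ τ : Perm ι, FT g g' τ σ
      = ∑ τ : Perm ι, ∑ π : Perm ι, eps g π * (sg τ * eps g' (σ * π⁻¹ * τ⁻¹)) := by
        refine Finset.sum_congr rfl fun τ _ => ?_
        unfold FT
        rw [Finset.mul_sum]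
        refine Finset.sum_congr rfl fun π _ => ?_
        ring
    _ = ∑ π : Perm ι, eps g π * ∑ τ : Perm ι, sg τ * eps g' (σ * π⁻¹ * τ⁻¹) := by
        rw [Finset.sum_comm]
        refine Finset.sum_congr rfl fun π _ => ?_
        rw [Finset.mul_sum]
    _ = ∑ π : Perm ι, (yg g' : ℂ) * sg σ * (sg π * eps g π) := by
        refine Finset.sum_congr rfl fun π _ => ?_
        rw [h1, sumFT_sg_mul, sumFT_sg_inv]
        ring
    _ = (yg g : ℂ) * (yg g' : ℂ) * sg σ := by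
        rw [← Finset.mul_sum, sumFT_eps]
        ring

end Pool.Agent.Helper26.DR
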