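import Pool.Agent.Helper26.DR.Defs

set_option autoImplicit false

namespace Pool.Agent.Helper26.DR

open Equiv Finset

variable {ι Γ Γ' : Type} [Fintype ι] [DecidableEq ι] [DecidableEq Γ] [DecidableEq Γ']

/-- Piece C3. Equal tables give the same double coset.  The maps `f i = (g i, g' (τ' i))` and
`f' i = (g i, g' (τ i))` from `ι` to `Γ × Γ'` have fibres of the same cardinality, so there is a
permutation `π₀` with `f' (π₀ i) = f i` (`Equiv.ofFiberEquiv`, `Equiv.ofFiberEquiv_map`, with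
`Fintype.equivOfCardEq`).  Then `g (π₀ i) = g i`, and `κ₀ = τ' * π₀⁻¹ * τ⁻¹` preserves `g'`. -/
theorem tab_coset (g : ι → Γ) (g' : ι → Γ') (τ τ' : Perm ι) (h : tab g g' τ = tab g g' τ') :
    ∃ π₀ κ₀ : Perm ι, (∀ i, g (π₀ i) = g i) ∧ (∀ i, g' (κ₀ i) = g' i) ∧ τ' = κ₀ * τ * π₀ := by
  classical
  have hcard : ∀ c : Γ × Γ', Fintype.card {i : ι // (g i, g' (τ' i)) = c} =
      Fintype.card {i : ι // (g i, g' (τ i)) = c} := by
    rintro ⟨a, b⟩
    rw [Fintype.card_subtype, Fintype.card_subtype]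
    have h1 := congrFun (congrFun h a) b
    simp only [tab] at h1
    simp only [Prod.mk.injEq]
    exact h1.symm
  let π₀ : Perm ι := Equiv.ofFiberEquiv (f := fun i => (g i, g' (τ' i)))
    (g := fun i => (g i, g' (τ i))) (fun c => Fintype.equivOfCardEq (hcard c))
  have hπ : ∀ i, (g (π₀ i), g' (τ (π₀ i))) = (g i, g' (τ' i)) := fun i =>
    Equiv.ofFiberEquiv_map (f := fun i => (g i, g' (τ' i)))
      (g := fun i => (g i, g' (τ i))) (fun c => Fintype.equivOfCardEq (hcard c)) i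
  refine ⟨π₀, τ' * π₀⁻¹ * τ⁻¹, fun i => (Prod.mk.inj (hπ i)).1, fun i => ?_, ?_⟩
  · have h2 := (Prod.mk.inj (hπ (π₀⁻¹ (τ⁻¹ i)))).2
    have h3 : π₀ (π₀⁻¹ (τ⁻¹ i)) = τ⁻¹ i := π₀.apply_symm_apply _
    have h4 : τ (τ⁻¹ i) = i := τ.apply_symm_apply _
    rw [h3, h4] at h2
    simp only [Perm.mul_apply]
    exact h2.symm
  · group

end Pool.Agent.Helper26.DR
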