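import Pool.Agent.Helper26.DR.St.StepA
import Pool.Agent.Helper26.DR.St.Leib
import Pool.Agent.Helper26.DR.St.SumFT
import Pool.Agent.Helper26.DR.St.Coset
import Pool.Agent.Helper26.DR.St.TabCoset
import Pool.Agent.Helper26.DR.St.CardTab

set_option autoImplicit false

namespace Pool.Agent.Helper26.DR

open Equiv Finset

theorem stepB_yg_pos {ι Γ : Type} [Fintype ι] [DecidableEq ι] [DecidableEq Γ] (g : ι → Γ) :
    0 < yg g := by
  unfold yg
  rw [Finset.card_pos]
  exact ⟨1, by simp⟩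

/-- Piece D2. The recursion.  Let `g i = (e i).1`, `g' i = (e' i).1`, `Y = yg g * yg g'` (positive).
By `sum_FT`, `sg σ = Y⁻¹ * ∑ τ, FT g g' τ σ`; group the `τ` by their table
(`Finset.sum_fiberwise_of_maps_to` onto the image): by `tab_coset` and `FT_coset` all `τ` with the
same table have the same `FT`, so for every table `N` in the image choose one `τ_N` and the sum is
`Y⁻¹ * ∑ N ∈ image, n_N * FT g g' τ_N σ`.  Now `det_eq_PF`, `RK.sum`, `RK.smul`, `RK.FT` and
`card_tab` (here `#{i | (e i).1 = a} = #κ`), `RK.mono`. -/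
theorem TR.step {ι κ κ' Γ Γ' : Type} [Fintype ι] [DecidableEq ι] [Fintype κ] [DecidableEq κ]
    [Fintype κ'] [DecidableEq κ'] [Fintype Γ] [DecidableEq Γ] [Fintype Γ'] [DecidableEq Γ']
    {r r' : ℕ} (e : ι ≃ Γ × κ) (e' : ι ≃ Γ' × κ') (h : TR κ r) (h' : TR κ' r') :
    TR ι (((Fintype.card Γ' + Fintype.card κ - 1).choose (Fintype.card κ)) ^ Fintype.card Γ *
      (r ^ Fintype.card Γ * r' ^ Fintype.card Γ')) := by
  classical
  set g : ι → Γ := fun i => (e i).1 with hg
  set g' : ι → Γ' := fun i => (e' i).1 with hg'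
  set Y : ℂ := (yg g : ℂ) * (yg g' : ℂ) with hY
  have hY0 : Y ≠ 0 := by
    have h1 : (yg g : ℂ) ≠ 0 := by exact_mod_cast (stepB_yg_pos g).ne'
    have h2 : (yg g' : ℂ) ≠ 0 := by exact_mod_cast (stepB_yg_pos g').ne'
    exact mul_ne_zero h1 h2
  set I : Finset (Γ → Γ' → ℕ) := univ.image fun τ : Perm ι => tab g g' τ with hI
  -- representatives
  let ch : (Γ → Γ' → ℕ) → Perm ι := fun N =>
    if hN : ∃ τ, tab g g' τ = N then hN.choose else 1
  have hch : ∀ τ : Perm ι, tab g g' (ch (tab g g' τ)) = tab g g' τ := by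
    intro τ
    have hN : ∃ τ', tab g g' τ' = tab g g' τ := ⟨τ, rfl⟩
    simp only [ch, dif_pos hN]
    exact hN.choose_spec
  have hFT : ∀ τ σ : Perm ι, FT g g' τ σ = FT g g' (ch (tab g g' τ)) σ := by
    intro τ σ
    obtain ⟨π₀, κ₀, h1, h2, h3⟩ := tab_coset g g' (ch (tab g g' τ)) τ (hch τ)
    conv_lhs => rw [h3]
    exact FT_coset g g' _ π₀ κ₀ σ h1 h2
  let cf : (Γ → Γ' → ℕ) → ℂ := fun N => Y⁻¹ * (#{τ : Perm ι | tab g g' τ = N} : ℂ)
  have hsg : ∀ σ : Perm ι, sg σ = ∑ N ∈ I, cf N * FT g g' (ch N) σ := by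
    intro σ
    have h1 : ∑ τ : Perm ι, FT g g' τ σ =
        ∑ N ∈ I, (#{τ : Perm ι | tab g g' τ = N} : ℂ) * FT g g' (ch N) σ := by
      rw [← Finset.sum_fiberwise_of_maps_to (s := univ) (t := I) (g := fun τ => tab g g' τ)
        (fun τ _ => Finset.mem_image_of_mem _ (Finset.mem_univ τ))]
      refine sum_congr rfl fun N _ => ?_
      rw [Finset.sum_congr rfl (g := fun _ => FT g g' (ch N) σ)]
      · rw [Finset.sum_const, nsmul_eq_mul]
      · intro τ hτ
        rw [Finset.mem_filter] at hτ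
        rw [hFT τ σ, hτ.2]
    have h2 := sum_FT g g' σ
    have h3 : sg σ = Y⁻¹ * ∑ τ : Perm ι, FT g g' τ σ := by
      rw [h2, ← hY, inv_mul_cancel_left₀ hY0]
    rw [h3, h1, mul_sum]
    refine sum_congr rfl fun N _ => ?_
    simp only [cf]
    ring
  have hdet : (Matrix.det : Matrix ι ι ℂ → ℂ) =
      fun A => ∑ N ∈ I, cf N * PF (FT g g' (ch N)) A := by
    funext A
    rw [det_eq_PF]
    unfold PF
    simp only [hsg]
    simp only [mul_sum, sum_mul]
    rw [Finset.sum_comm]
    refine sum_congr rfl fun N _ => sum_congr rfl fun σ _ => ?_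
    ring
  have hsum : TR ι (∑ N ∈ I, r ^ Fintype.card Γ * r' ^ Fintype.card Γ') := by
    unfold TR
    rw [hdet]
    exact RK.sum I (fun N A => cf N * PF (FT g g' (ch N)) A) _
      (fun N _ => (RK.FT e e' h h' (ch N)).smul (cf N))
  refine RK.mono hsum ?_
  rw [Finset.sum_const, smul_eq_mul]
  refine Nat.mul_le_mul_right _ ?_
  refine card_tab g g' (Fintype.card κ) fun a => ?_
  rw [← Fintype.card_coe]
  refine Fintype.card_congr ?_
  exact
    { toFun := fun i => (e i.1).2
      invFun := fun p => ⟨e.symm (a, p), by simp [hg]⟩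
      left_inv := by
        intro i
        have := i.2
        simp only [Finset.mem_filter, Finset.mem_univ, true_and, hg] at this
        apply Subtype.ext
        have h4 : (a, (e i.1).2) = e i.1 := Prod.ext this.symm rfl
        change e.symm (a, (e i.1).2) = i.1
        rw [h4, e.symm_apply_apply]
      right_inv := by
        intro p
        simp }

end Pool.Agent.Helper26.DR
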