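import Pool.Agent.Helper26.DR.St.BasicA
import Pool.Agent.Helper26.DR.St.BasicB
import Pool.Agent.Helper26.DR.St.StepB
import Pool.Agent.Helper26.DR.St.Base
import Pool.Agent.Helper26.DR.St.NumB

set_option autoImplicit false

namespace Pool.Agent.Helper26.DR

open Equiv Finset

private theorem iterA_step_gen (K M k r N : ℕ) (hK : N = 2 * k * K) (hM : N = M * k)
    (h : TR (Fin k) r) : TR (Fin N) (S1 K M ^ (2 * k) * r ^ M) := by
  have e : Fin N ≃ Fin (2 * k) × Fin K := (finCongr hK).trans finProdFinEquiv.symm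
  have e' : Fin N ≃ Fin M × Fin k := (finCongr hM).trans finProdFinEquiv.symm
  have key := TR.step e e' (TR.base K) h
  simp only [Fintype.card_fin] at key
  rw [S1_eq, mul_pow, mul_assoc]
  exact key

private theorem iterA_exp (a c m n : ℕ) (hc : c ≤ a ^ m) : c ^ (2 * n) ≤ a ^ (m * (2 * n)) := by
  calc c ^ (2 * n) ≤ (a ^ m) ^ (2 * n) := Nat.pow_le_pow_left hc _
    _ = a ^ (m * (2 * n)) := by rw [← pow_mul]

private theorem iterA_pow (b c j k r : ℕ) :
    b ^ (c * (b ^ (j + 1) * k)) * (b ^ (c * (j + 1) * b ^ j * k) * r ^ (b ^ (j + 1))) ^ b =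
      b ^ (c * (j + 1 + 1) * b ^ (j + 1) * k) * r ^ (b ^ (j + 1 + 1)) := by
  rw [mul_pow, ← pow_mul, ← pow_mul, ← mul_assoc, ← pow_add]
  congr 2
  ring

/-- Piece G1. One step of the recursion: `TR.step` with `ι = Fin (2000 * k)`,
`Γ × κ = Fin (2 * k) × Fin 1000`, `Γ' × κ' = Fin 2000 × Fin k` (`finProdFinEquiv`, `finCongr`),
`TR.base 1000` and the given `r`.  Here `2000 + 1000 - 1 = 2999`, and
`(a ^ (2 * k) * (b ^ (2 * k) * r ^ 2000)) = (a * b) ^ (2 * k) * r ^ 2000`. -/
theorem TR.mul2000 {k r : ℕ} (h : TR (Fin k) r) :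
    TR (Fin (2000 * k)) (S0 ^ (2 * k) * r ^ 2000) := by
  rw [S0_eq]
  exact iterA_step_gen 1000 2000 k r (2000 * k) (by omega) rfl h

/-- Piece G2. Iteration.  Induction on `j` from `TR.mul2000` and `S0_le` (with `RK.mono`):
if `TR (Fin (2000 ^ j * k)) (2000 ^ (1678 * j * 2000 ^ (j - 1) * k) * r ^ (2000 ^ j))`
then the step gives the exponent `839 * 2 * 2000 ^ j * k + 2000 * (1678 * j * 2000 ^ (j - 1) * k)`.
(To avoid the subtraction the statement is for `j + 1`; the induction starts with `j + 1 = 1`.) -/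
theorem TR.iter {k r : ℕ} (h : TR (Fin k) r) (j : ℕ) :
    TR (Fin (2000 ^ (j + 1) * k))
      (2000 ^ (1678 * (j + 1) * 2000 ^ j * k) * r ^ (2000 ^ (j + 1))) := by
  have hstep : ∀ {k r : ℕ}, TR (Fin k) r →
      TR (Fin (2000 * k)) (2000 ^ (1678 * k) * r ^ 2000) := by
    intro k r h
    refine RK.mono (TR.mul2000 h) ?_
    refine Nat.mul_le_mul_right _ ?_
    have h1 := iterA_exp 2000 S0 839 k S0_le
    have h2 : 839 * (2 * k) = 1678 * k := by ring
    rw [h2] at h1
    exact h1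
  induction j with
  | zero =>
    have h1 := hstep h
    have e1 : 2000 * k = 2000 ^ (0 + 1) * k := by rw [zero_add, pow_one]
    have e2 : 1678 * (0 + 1) * 2000 ^ 0 * k = 1678 * k := by
      rw [zero_add, pow_zero, mul_one, mul_one]
    have h2 := TR.congr (finCongr e1) h1
    rw [e2]
    have e3 : r ^ (2000 ^ (0 + 1)) = r ^ 2000 := by rw [zero_add, pow_one]
    rw [e3]
    exact h2
  | succ j ih =>
    have h1 := hstep ih
    have e1 : 2000 * (2000 ^ (j + 1) * k) = 2000 ^ (j + 1 + 1) * k := by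
      rw [← mul_assoc, pow_succ' 2000 (j + 1)]
    have h2 := TR.congr (finCongr e1) h1
    rw [iterA_pow 2000 1678 j k r] at h2
    exact h2

end Pool.Agent.Helper26.DR
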