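import Pool.Agent.Helper26.DR.St.Leib
import Pool.Agent.Helper26.DR.St.BasicB
import Pool.Agent.Helper26.DR.St.IterA

set_option autoImplicit false

namespace Pool.Agent.Helper26.DR

open Equiv Finset

private theorem final_pow1 (b : ℝ) (hb : 0 < b) (c : ℝ) (N m : ℕ) (M : ℝ) (hN : (N : ℝ) = m * (c * M)) :
    b ^ N = (b ^ m) ^ (c * M) := by
  rw [← Real.rpow_natCast b N, hN, Real.rpow_mul hb.le, Real.rpow_natCast]

private theorem final_first (n j k : ℕ) (h1 : 2000 ^ (j + 2) ≤ n)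
    (hn' : 2000 ^ (j + 1) * k ≤ n + 2000 ^ (j + 1)) :
    (2000 : ℝ) ^ (1678 * (j + 1) * 2000 ^ j * k) ≤ (n : ℝ) ^ ((21 / 25 : ℝ) * n) := by
  have hN : ((1678 * (j + 1) * 2000 ^ j * k : ℕ) : ℝ) =
      ((j + 1 : ℕ) : ℝ) * ((839 / 1000 : ℝ) * ((2000 : ℝ) ^ (j + 1) * k)) := by
    push_cast
    ring
  rw [final_pow1 2000 (by norm_num) (839 / 1000) _ (j + 1) ((2000 : ℝ) ^ (j + 1) * k) hN]
  have hP1 : (1 : ℝ) ≤ (2000 : ℝ) ^ (j + 1) := one_le_pow₀ (by norm_num)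
  have h1r : (2000 : ℝ) * (2000 : ℝ) ^ (j + 1) ≤ n := by
    have : ((2000 ^ (j + 2) : ℕ) : ℝ) ≤ n := by exact_mod_cast h1
    push_cast at this
    calc (2000 : ℝ) * (2000 : ℝ) ^ (j + 1) = (2000 : ℝ) ^ (j + 2) := by ring
      _ ≤ n := this
  have h2r : (2000 : ℝ) ^ (j + 1) * k ≤ n + (2000 : ℝ) ^ (j + 1) := by
    have : ((2000 ^ (j + 1) * k : ℕ) : ℝ) ≤ ((n + 2000 ^ (j + 1) : ℕ) : ℝ) := by
      exact_mod_cast hn'
    push_cast at this
    exact this
  calc ((2000 : ℝ) ^ (j + 1)) ^ ((839 / 1000 : ℝ) * ((2000 : ℝ) ^ (j + 1) * k))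
      ≤ ((2000 : ℝ) ^ (j + 1)) ^ ((21 / 25 : ℝ) * n) := by
        apply Real.rpow_le_rpow_of_exponent_le hP1
        linarith
    _ ≤ (n : ℝ) ^ ((21 / 25 : ℝ) * n) := by
        apply Real.rpow_le_rpow (by positivity)
        · linarith
        · positivity

private theorem final_second (n P k : ℕ) (hk : k ≤ 2000 ^ 2) (h1 : k * P ≤ 2 * n) :
    (k.factorial : ℝ) ^ P ≤ ((2000 : ℝ) ^ 4) ^ n := by
  have h : k.factorial ^ P ≤ (2000 ^ 4) ^ n := by
    calc k.factorial ^ P ≤ (k ^ k) ^ P := Nat.pow_le_pow_left (Nat.factorial_le_pow k) P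
      _ = k ^ (k * P) := by rw [← pow_mul]
      _ ≤ (2000 ^ 2) ^ (k * P) := Nat.pow_le_pow_left hk _
      _ ≤ (2000 ^ 2) ^ (2 * n) := Nat.pow_le_pow_right (by norm_num) h1
      _ = (2000 ^ 4) ^ n := by rw [pow_mul]; norm_num
  exact_mod_cast h

/-- Piece G3. All sizes.  If `n < 2000 ^ 2` use `TR.leibniz` and `n! ≤ n ^ n`.  Otherwise choose
`j` with `2000 ^ (j + 2) ≤ n < 2000 ^ (j + 3)` (`Nat.log`), put `J = j + 1`, `P = 2000 ^ J`,
`k = n / P + 1`, so `2000 < k ≤ 2000 ^ 2` and `n ≤ n' = P * k ≤ n + P ≤ n * (1 + 1 / 2000)`.  By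
`TR.iter` for `k` and `r = k!` (`TR.leibniz`), and `TR.anti`, the number of terms is at most
`2000 ^ (1678 * J * 2000 ^ (J - 1) * k) * (k!) ^ P`.  Here
`1678 * J * 2000 ^ (J - 1) * k = (839 / 1000) * J * n'`, so the first factor is
`P ^ (0.839 * n') ≤ n ^ (0.839 * 1.0005 * n) ≤ n ^ (0.84 * n)` as `P ≤ n`, and
`(k!) ^ P ≤ k ^ (k * P) = k ^ n' ≤ (2000 ^ 2) ^ (2 * n)`.  So `C = 2000 ^ 4` works. -/
theorem TR.main : ∃ C : ℝ, 0 < C ∧ ∀ n : ℕ, 1 ≤ n →
    ∃ r : ℕ, TR (Fin n) r ∧ (r : ℝ) ≤ C ^ n * (n : ℝ) ^ ((21 / 25 : ℝ) * n) := by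
  refine ⟨(2000 : ℝ) ^ 4, by norm_num, fun n hn => ?_⟩
  have hn1 : (1 : ℝ) ≤ n := by exact_mod_cast hn
  by_cases hsmall : n ≤ 2000 ^ 2
  · refine ⟨n.factorial, TR.leibniz n, ?_⟩
    have h1 : (n.factorial : ℝ) ^ 1 ≤ ((2000 : ℝ) ^ 4) ^ n :=
      final_second n 1 n hsmall (by omega)
    rw [pow_one] at h1
    have h2 : (1 : ℝ) ≤ (n : ℝ) ^ ((21 / 25 : ℝ) * n) :=
      Real.one_le_rpow hn1 (by positivity)
    calc (n.factorial : ℝ) ≤ ((2000 : ℝ) ^ 4) ^ n := h1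
      _ = ((2000 : ℝ) ^ 4) ^ n * 1 := by ring
      _ ≤ ((2000 : ℝ) ^ 4) ^ n * (n : ℝ) ^ ((21 / 25 : ℝ) * n) :=
        mul_le_mul_of_nonneg_left h2 (by positivity)
  · push Not at hsmall
    obtain ⟨j, hj⟩ : ∃ j, Nat.log 2000 n = j + 2 := by
      have : 2 ≤ Nat.log 2000 n := Nat.le_log_of_pow_le (by norm_num) hsmall.le
      exact ⟨Nat.log 2000 n - 2, by omega⟩
    have hlow : 2000 ^ (j + 2) ≤ n := by
      rw [← hj]
      exact Nat.pow_log_le_self 2000 (by omega)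
    have hup : n < 2000 ^ (j + 3) := by
      have := Nat.lt_pow_succ_log_self (b := 2000) (by norm_num) n
      rw [hj] at this
      exact this
    set P : ℕ := 2000 ^ (j + 1) with hP
    have hPpos : 0 < P := by rw [hP]; positivity
    have hPn : P ≤ n := by
      refine le_trans ?_ hlow
      rw [hP]
      exact Nat.pow_le_pow_right (by norm_num) (by omega)
    set k : ℕ := n / P + 1 with hk
    have hk2 : k ≤ 2000 ^ 2 := by
      have h3 : n / P < 2000 ^ 2 := by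
        rw [Nat.div_lt_iff_lt_mul hPpos]
        have : 2000 ^ 2 * P = 2000 ^ (j + 3) := by
          rw [hP, ← pow_add]
          congr 1
          omega
        rw [this]
        exact hup
      omega
    have hle : n ≤ P * k := by
      have := Nat.lt_mul_div_succ n hPpos
      rw [hk]
      exact this.le
    have hge : P * k ≤ n + P := by
      have := Nat.mul_div_le n P
      rw [hk, mul_add, mul_one]
      omega
    have hT := TR.anti (TR.iter (TR.leibniz k) j) hle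
    refine ⟨_, hT, ?_⟩
    rw [← hP]
    have hA := final_first n j k hlow hge
    have hB := final_second n P k hk2 (by
      have : k * P = P * k := mul_comm _ _
      omega)
    rw [Nat.cast_mul, Nat.cast_pow, Nat.cast_pow, mul_comm]
    refine mul_le_mul hB ?_ (by positivity) (by positivity)
    exact_mod_cast hA

end Pool.Agent.Helper26.DR
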