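import Pool.Agent.Helper26.DR.Defs

set_option autoImplicit false

namespace Pool.Agent.Helper26.DR

open Equiv Finset

/-- Piece F1. For `x > 0`: `(j + 1) ^ n ≤ n! * exp (x * (j + 1)) / x ^ n` and
`1 / j! ≤ exp y / y ^ j` with `y = exp x` (both are `y ^ j / j! ≤ exp y`,
`Real.pow_div_factorial_le_exp`); multiply. -/
theorem bb_term (n j : ℕ) (x : ℝ) (hx : 0 < x) :
    ((j + 1 : ℕ) : ℝ) ^ n / (j.factorial : ℝ) ≤
      (n.factorial : ℝ) * Real.exp (x + Real.exp x) / x ^ n := by
  have hn : (0 : ℝ) < (n.factorial : ℝ) := by exact_mod_cast n.factorial_pos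
  have hj : (0 : ℝ) < (j.factorial : ℝ) := by exact_mod_cast j.factorial_pos
  have hxn : 0 < x ^ n := pow_pos hx n
  have h1 := Real.pow_div_factorial_le_exp (x * ((j + 1 : ℕ) : ℝ)) (by positivity) n
  have h2 := Real.pow_div_factorial_le_exp (Real.exp x) (Real.exp_pos x).le j
  rw [mul_pow, div_le_iff₀ hn] at h1
  rw [div_le_iff₀ hj] at h2
  have h3 : Real.exp (x * ((j + 1 : ℕ) : ℝ)) = Real.exp x * Real.exp x ^ j := by
    rw [← Real.exp_nat_mul, ← Real.exp_add]
    congr 1
    push_cast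
    ring
  rw [div_le_div_iff₀ hj hxn]
  calc ((j + 1 : ℕ) : ℝ) ^ n * x ^ n = x ^ n * ((j + 1 : ℕ) : ℝ) ^ n := by ring
    _ ≤ Real.exp (x * ((j + 1 : ℕ) : ℝ)) * n.factorial := h1
    _ = (n.factorial : ℝ) * Real.exp x * Real.exp x ^ j := by rw [h3]; ring
    _ ≤ (n.factorial : ℝ) * Real.exp x * (Real.exp (Real.exp x) * j.factorial) := by
        apply mul_le_mul_of_nonneg_left h2
        exact mul_nonneg hn.le (Real.exp_pos x).le
    _ = (n.factorial : ℝ) * Real.exp (x + Real.exp x) * j.factorial := by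
        rw [Real.exp_add]; ring

/-- Piece F2. Sum of the previous bounds (`Nat.cast_div_le`). -/
theorem bb_le (n : ℕ) (x : ℝ) (hx : 0 < x) :
    (bb n : ℝ) ≤ (n + 1) * ((n.factorial : ℝ) * Real.exp (x + Real.exp x) / x ^ n) := by
  unfold bb
  rw [Nat.cast_sum]
  calc ∑ j ∈ range (n + 1), (((j + 1) ^ n / j.factorial : ℕ) : ℝ)
      ≤ ∑ j ∈ range (n + 1), (n.factorial : ℝ) * Real.exp (x + Real.exp x) / x ^ n := by
        apply Finset.sum_le_sum
        intro j _
        refine le_trans Nat.cast_div_le ?_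
        have := bb_term n j x hx
        push_cast at this ⊢
        exact this
    _ = (n + 1) * ((n.factorial : ℝ) * Real.exp (x + Real.exp x) / x ^ n) := by
        rw [Finset.sum_const, Finset.card_range, nsmul_eq_mul]
        push_cast
        ring

end Pool.Agent.Helper26.DR
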