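import Pool.Agent.Helper26.DR.Defs

set_option autoImplicit false

namespace Pool.Agent.Helper26.DR

open Equiv Finset

private noncomputable def polarb (b : Bool) : ℂ := if b then 1 else -1

private lemma polarb_not (b : Bool) : polarb (!b) = - polarb b := by
  cases b <;> simp [polarb]

private lemma polarb_sq (b : Bool) : polarb b * polarb b = 1 := by
  cases b <;> simp [polarb]

private lemma polar_inner {d : ℕ} (φ : Fin d → Fin d) :
    ∑ e : Fin d → Bool, (∏ i, polarb (e i)) * ∏ k, polarb (e (φ k)) =
      if Function.Bijective φ then (2 : ℂ) ^ d else 0 := by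
  classical
  split_ifs with h
  · have h1 : ∀ e : Fin d → Bool, (∏ i, polarb (e i)) * ∏ k, polarb (e (φ k)) = 1 := by
      intro e
      have h2 : ∏ k, polarb (e (φ k)) = ∏ i, polarb (e i) :=
        Function.Bijective.prod_comp h (fun i => polarb (e i))
      rw [h2, ← Finset.prod_mul_distrib]
      exact Finset.prod_eq_one fun i _ => polarb_sq _
    rw [Finset.sum_congr rfl fun e _ => h1 e]
    simp
  · have hs : ¬ Function.Surjective φ := fun hs => h (Finite.surjective_iff_bijective.1 hs)
    rw [Function.Surjective] at hs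
    push Not at hs
    obtain ⟨i0, hi0⟩ := hs
    refine Finset.sum_involution (fun e _ => Function.update e i0 (!e i0)) ?_ ?_ ?_ ?_
    · intro e _
      have h1 : ∏ i, polarb (Function.update e i0 (!e i0) i) = - ∏ i, polarb (e i) := by
        rw [← Finset.mul_prod_erase univ _ (Finset.mem_univ i0),
          ← Finset.mul_prod_erase univ (fun i => polarb (e i)) (Finset.mem_univ i0)]
        rw [Function.update_self, polarb_not, neg_mul]
        congr 2
        refine Finset.prod_congr rfl fun i hi => ?_
        rw [Function.update_of_ne (Finset.ne_of_mem_erase hi)]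
      have h2 : ∏ k, polarb (Function.update e i0 (!e i0) (φ k)) = ∏ k, polarb (e (φ k)) := by
        refine Finset.prod_congr rfl fun k _ => ?_
        rw [Function.update_of_ne (hi0 k)]
      rw [h1, h2]
      ring
    · intro e _ _ he
      have h1 := congrFun he i0
      rw [Function.update_self] at h1
      cases h2 : e i0 <;> simp [h2] at h1
    · intro e _
      exact Finset.mem_univ _
    · intro e _
      simp

/-- Piece H1. Polarisation: expand the power by `Finset.sum_pow_of_commute` or by
`Finset.prod_univ_sum` for the power as a product over `Fin d`; for a map `φ : Fin d → Fin d` the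
sum over the signs `∑ e, ∏ i, sgn (e i) * ∏ i, sgn (e (φ i))` is `0` unless `φ` is bijective and
`2 ^ d` if it is.  (Or by induction; any proof will do.)  Here `e : Fin d → Bool` and
`b e i = if e i then 1 else -1`. -/
theorem polar {d : ℕ} (x : Fin d → ℂ) :
    ∑ e : Fin d → Bool, (∏ i, (if e i then (1 : ℂ) else -1)) *
      (∑ i, (if e i then (1 : ℂ) else -1) * x i) ^ d = (2 ^ d * d.factorial) * ∏ i, x i := by
  classical
  have h1 : ∀ e : Fin d → Bool, (∑ i, polarb (e i) * x i) ^ d =
      ∑ φ : Fin d → Fin d, (∏ k, polarb (e (φ k))) * ∏ k, x (φ k) := by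
    intro e
    have h2 : (∑ i, polarb (e i) * x i) ^ d = ∏ _k : Fin d, ∑ i, polarb (e i) * x i := by
      simp
    rw [h2, Finset.prod_univ_sum, Fintype.piFinset_univ]
    refine Finset.sum_congr rfl fun φ _ => ?_
    rw [Finset.prod_mul_distrib]
  change ∑ e : Fin d → Bool, (∏ i, polarb (e i)) * (∑ i, polarb (e i) * x i) ^ d = _
  have h3 : ∑ e : Fin d → Bool, (∏ i, polarb (e i)) * (∑ i, polarb (e i) * x i) ^ d =
      ∑ φ : Fin d → Fin d, (if Function.Bijective φ then (2 : ℂ) ^ d else 0) * ∏ k, x (φ k) := by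
    simp_rw [h1, Finset.mul_sum]
    rw [Finset.sum_comm]
    refine Finset.sum_congr rfl fun φ _ => ?_
    rw [← polar_inner φ, Finset.sum_mul]
    refine Finset.sum_congr rfl fun e _ => ?_
    ring
  rw [h3]
  have h4 : ∑ φ : Fin d → Fin d, (if Function.Bijective φ then (2 : ℂ) ^ d else 0) * ∏ k, x (φ k) =
      ∑ φ ∈ (univ : Finset (Fin d → Fin d)) with Function.Bijective φ, (2 : ℂ) ^ d * ∏ k, x (φ k) := by
    rw [Finset.sum_filter]
    refine Finset.sum_congr rfl fun φ _ => ?_
    split_ifs <;> simp
  rw [h4]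
  have h5 : ∑ φ ∈ (univ : Finset (Fin d → Fin d)) with Function.Bijective φ,
      (2 : ℂ) ^ d * ∏ k, x (φ k) = ∑ σ : Perm (Fin d), (2 : ℂ) ^ d * ∏ k, x (σ k) :=
    Finset.sum_bij (fun p h => Equiv.ofBijective p (mem_filter.1 h).2) (fun _ _ => mem_univ _)
      (fun _ _ _ _ h => by injection h)
      (fun b _ => ⟨b, mem_filter.2 ⟨mem_univ _, b.bijective⟩, Equiv.coe_fn_injective rfl⟩)
      (fun _ _ => rfl)
  rw [h5]
  have h6 : ∀ σ : Perm (Fin d), (2 : ℂ) ^ d * ∏ k, x (σ k) = (2 : ℂ) ^ d * ∏ k, x k := by
    intro σ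
    rw [Equiv.prod_comp σ x]
  rw [Finset.sum_congr rfl fun σ _ => h6 σ, Finset.sum_const, Finset.card_univ, Fintype.card_perm,
    Fintype.card_fin, nsmul_eq_mul]
  ring

end Pool.Agent.Helper26.DR
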