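import Pool.Agent.Helper26.DR.Defs

set_option autoImplicit false

namespace Pool.Agent.Helper26.DR

open Equiv Finset

/-- Piece B2. Right translation: `PF (fun σ => f (σ * τ⁻¹)) A = ∑ κ, f κ * ∏ i, A i (κ (τ i))
= PF f (A.submatrix τ⁻¹ id)` (the rows of `A` permuted), so the new matrices are
`fun t i j => u t (τ i) j`. -/
theorem RK.trans {ι : Type} [Fintype ι] [DecidableEq ι] {f : Perm ι → ℂ} {r : ℕ}
    (h : RK ι (PF f) r) (τ : Perm ι) : RK ι (PF fun σ => f (σ * τ⁻¹)) r := by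
  obtain ⟨c, u, hu⟩ := h
  refine ⟨c, fun t i j => u t (τ i) j, fun A => ?_⟩
  have key : PF (fun σ => f (σ * τ⁻¹)) A = PF f (A.submatrix (⇑τ⁻¹) id) := by
    unfold PF
    rw [← Equiv.sum_comp (Equiv.mulRight τ)]
    refine sum_congr rfl fun κ _ => ?_
    simp only [Equiv.coe_mulRight, mul_inv_cancel_right]
    congr 1
    rw [← Equiv.prod_comp τ (fun l => A.submatrix (⇑τ⁻¹) id l (κ l))]
    refine prod_congr rfl fun i _ => ?_
    simp [Equiv.Perm.mul_apply]
  rw [key, hu]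
  refine sum_congr rfl fun t _ => ?_
  congr 1
  rw [← Equiv.prod_comp τ]
  refine prod_congr rfl fun i _ => ?_
  simp

end Pool.Agent.Helper26.DR
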