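import Pool.Agent.Helper26.DR.St.BasicA
import Pool.Agent.Helper26.DR.St.Conv
import Pool.Agent.Helper26.DR.St.Trans
import Pool.Agent.Helper26.DR.St.Block

set_option autoImplicit false

namespace Pool.Agent.Helper26.DR

open Equiv Finset

/-- Piece D1. One term: `FT g g' τ` for `g i = (e i).1`, `g' i = (e' i).1` is `sg τ` times the
convolution of `eps g` and of the right translate `fun ρ => eps g' (ρ * τ⁻¹)`: `RK.block` twice,
`RK.trans`, `RK.conv` and a scalar. -/
theorem RK.FT {ι κ κ' Γ Γ' : Type} [Fintype ι] [DecidableEq ι] [Fintype κ] [DecidableEq κ]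
    [Fintype κ'] [DecidableEq κ'] [Fintype Γ] [DecidableEq Γ] [Fintype Γ'] [DecidableEq Γ']
    {r r' : ℕ} (e : ι ≃ Γ × κ) (e' : ι ≃ Γ' × κ') (h : TR κ r) (h' : TR κ' r') (τ : Perm ι) :
    RK ι (PF (FT (fun i => (e i).1) (fun i => (e' i).1) τ))
      (r ^ Fintype.card Γ * r' ^ Fintype.card Γ') := by
  have h1 := RK.block e h
  have h2 := (RK.block e' h').trans τ
  have h3 := (h1.conv h2).smul (sg τ)
  have h4 : (fun A : Matrix ι ι ℂ => sg τ * PF (fun σ => ∑ π : Perm ι, eps (fun i => (e i).1) π *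
      eps (fun i => (e' i).1) (σ * π⁻¹ * τ⁻¹)) A) =
      PF (DR.FT (fun i => (e i).1) (fun i => (e' i).1) τ) := by
    funext A
    unfold PF DR.FT
    rw [mul_sum]
    refine sum_congr rfl fun σ _ => ?_
    ring
  rw [← h4]
  exact h3

end Pool.Agent.Helper26.DR
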