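import Pool.Agent.Helper26.DR.St.Polar

set_option autoImplicit false

namespace Pool.Agent.Helper26.DR

open Equiv Finset

/-- Piece H2. From row products to power sums.  Every row product
`c * ∏ i, ∑ j, u i j * A i j` is by `polar` a linear combination of `2 ^ d` powers
`(∑ i, ± ∑ j, u i j * A i j) ^ d`; coefficients are absorbed because `ℂ` is algebraically closed
and `d ≥ 1` (`IsAlgClosed.exists_pow_nat_eq`).  The identity of polynomials follows from the identity
of the values at all complex matrices (`MvPolynomial.funext`, `RingHom.map_det`). -/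
theorem waring_of_TR {d r : ℕ} (hd : 1 ≤ d) (h : TR (Fin d) r) :
    ∃ l : Fin (2 ^ d * r) → Fin d × Fin d → ℂ,
      (Matrix.of fun i j : Fin d => (MvPolynomial.X (i, j) : MvPolynomial (Fin d × Fin d) ℂ)).det =
        ∑ t, (∑ p, MvPolynomial.C (l t p) * MvPolynomial.X p) ^ d := by
  obtain ⟨c, u, hcu⟩ := h
  have hroot : ∀ (t : Fin r) (e : Fin d → Bool), ∃ z : ℂ, z ^ d =
      c t * ((2 ^ d * d.factorial : ℂ))⁻¹ * ∏ i, (if e i then (1 : ℂ) else -1) := fun t e =>
    IsAlgClosed.exists_pow_nat_eq _ (by omega)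
  choose z hz using hroot
  have hcard : Fintype.card (Fin (2 ^ d * r)) = Fintype.card ((Fin d → Bool) × Fin r) := by
    simp
  let E := Fintype.equivOfCardEq hcard
  refine ⟨fun t p => z (E t).2 (E t).1 * (if (E t).1 p.1 then (1 : ℂ) else -1) *
    u (E t).2 p.1 p.2, ?_⟩
  apply MvPolynomial.funext
  intro x
  rw [RingHom.map_det, map_sum]
  have hM : (MvPolynomial.eval x).mapMatrix (Matrix.of fun i j : Fin d =>
      (MvPolynomial.X (i, j) : MvPolynomial (Fin d × Fin d) ℂ)) =
      Matrix.of fun i j : Fin d => x (i, j) := by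
    ext i j
    simp
  rw [hM, hcu]
  have hne : (2 ^ d * d.factorial : ℂ) ≠ 0 := by
    have h1 : (d.factorial : ℂ) ≠ 0 := by exact_mod_cast d.factorial_ne_zero
    exact mul_ne_zero (pow_ne_zero _ two_ne_zero) h1
  have hR : ∀ t : Fin (2 ^ d * r), MvPolynomial.eval x ((∑ p : Fin d × Fin d,
      MvPolynomial.C (z (E t).2 (E t).1 * (if (E t).1 p.1 then (1 : ℂ) else -1) *
        u (E t).2 p.1 p.2) * MvPolynomial.X p) ^ d) =
      (fun q : (Fin d → Bool) × Fin r => (c q.2 * ((2 ^ d * d.factorial : ℂ))⁻¹ *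
        ∏ i, (if q.1 i then (1 : ℂ) else -1)) *
        (∑ i, (if q.1 i then (1 : ℂ) else -1) * ∑ j, u q.2 i j * x (i, j)) ^ d) (E t) := by
    intro t
    simp only [map_pow, map_sum, map_mul, MvPolynomial.eval_C, MvPolynomial.eval_X]
    rw [← hz, ← mul_pow]
    congr 1
    rw [Fintype.sum_prod_type, Finset.mul_sum]
    refine Finset.sum_congr rfl fun i _ => ?_
    rw [Finset.mul_sum, Finset.mul_sum]
    refine Finset.sum_congr rfl fun j _ => ?_
    ring
  refine Eq.trans ?_ (Finset.sum_congr rfl (fun t _ => hR t)).symm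
  refine Eq.trans ?_ (Equiv.sum_comp E (fun q : (Fin d → Bool) × Fin r =>
    (c q.2 * ((2 ^ d * d.factorial : ℂ))⁻¹ * ∏ i, (if q.1 i then (1 : ℂ) else -1)) *
        (∑ i, (if q.1 i then (1 : ℂ) else -1) * ∑ j, u q.2 i j * x (i, j)) ^ d)).symm
  refine Eq.trans (b := ∑ t, c t * ∏ i, ∑ j, u t i j * x (i, j)) rfl ?_
  rw [Fintype.sum_prod_type, Finset.sum_comm]
  refine Finset.sum_congr rfl fun t _ => ?_
  have hp := polar (fun i : Fin d => ∑ j, u t i j * x (i, j))
  have h2 : ∏ i, ∑ j, u t i j * x (i, j) = ((2 ^ d * d.factorial : ℂ))⁻¹ *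
      ∑ e : Fin d → Bool, (∏ i, (if e i then (1 : ℂ) else -1)) *
      (∑ i, (if e i then (1 : ℂ) else -1) * ∑ j, u t i j * x (i, j)) ^ d := by
    rw [hp, ← mul_assoc, inv_mul_cancel₀ hne, one_mul]
  rw [h2, ← mul_assoc, Finset.mul_sum]
  refine Finset.sum_congr rfl fun e _ => ?_
  ring

end Pool.Agent.Helper26.DR
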